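import Pool.Agent.R344.SP.D

/-! Laws of single iterates, part A: words, starting points in a class mod `3^n`. -/

set_option autoImplicit false

namespace Pool.Agent.W5h47.SL

open Pool.Agent.H320R2.PD Finset
open Pool.Agent.H499R2.CO (Tz)
open Pool.Agent.H499R2.ND (mem_win ap mem_ap ap_card_le crt dev sum_periodic_le cnt_congr)
open Pool.Agent.R344.SP

/-- odd integers of `[A,2A)` in a class -/
noncomputable def Oc (A : ℝ) (n : ℕ) (u v : ℤ) : Finset ℤ := (Od A).filter fun M => (3 : ℤ) ^ n ∣ u * M - v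

theorem mem_Oc {A : ℝ} {n : ℕ} {u v M : ℤ} :
    M ∈ Oc A n u v ↔ ((A ≤ M ∧ (M : ℝ) < 2 * A) ∧ M % 2 = 1) ∧ (3 : ℤ) ^ n ∣ u * M - v := by
  unfold Oc; rw [mem_filter, mem_Od]

theorem cop_mul {u : ℤ} (hu : IsCoprime u 3) (t : ℕ) : IsCoprime (u * 2 ^ t) 3 :=
  IsCoprime.mul_left hu (cop23 t)

/-- one word -/
theorem one_wordC {d : ℤ} (hd : d % 2 = 1) {A : ℝ} (c j t n : ℕ) (ht : 1 ≤ t) {Ψ : ℤ → ℝ}
    (hΨ : ∀ x, |Ψ x| ≤ 1) {w : List ℕ} (hw : w ∈ FWT c j t) {u : ℤ} (hu : IsCoprime u 3) (v : ℤ) :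
    |∑ M ∈ (Oc A n u v).filter (fun M => (2 : ℤ) ^ t ∣ 3 ^ j * M + d * Wo w),
        Ψ ((3 ^ j * M + d * Wo w) / 2 ^ t)
      - ∑ x ∈ cl (A * 3 ^ j / 2 ^ t) (2 * (A * 3 ^ j / 2 ^ t)) (j + n) (u * 2 ^ t)
          (u * (d * Wo w) + 3 ^ j * v), Ψ x|
      ≤ 2 * (|(d : ℝ)| + 1) := by
  obtain ⟨h1, h2, h3⟩ := FWT_props hw
  have hne : w ≠ [] := by rintro rfl; simp at h3; omega
  have h2t : (0 : ℝ) < 2 ^ t := by positivity
  have h2z : (0 : ℤ) < 2 ^ t := by positivity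
  have h3j : (0 : ℝ) < 3 ^ j := by positivity
  have h3jz : (3 : ℤ) ^ j ≠ 0 := by positivity
  set L := A * 3 ^ j / 2 ^ t with hL
  set s : ℝ := d * Wo w / 2 ^ t with hs
  have hkey : ∀ x : ℤ, (3 : ℤ) ^ (j + n) ∣ u * 2 ^ t * x - (u * (d * Wo w) + 3 ^ j * v) →
      ∃ M : ℤ, 2 ^ t * x - d * Wo w = 3 ^ j * M ∧ (3 : ℤ) ^ n ∣ u * M - v := by
    intro x hx
    have hj : (3 : ℤ) ^ j ∣ u * 2 ^ t * x - (u * (d * Wo w) + 3 ^ j * v) :=
      (pow_dvd_pow 3 (Nat.le_add_right j n)).trans hx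
    have hj2 : (3 : ℤ) ^ j ∣ u * (2 ^ t * x - d * Wo w) := by
      have h5 := dvd_add hj (Dvd.intro v rfl : (3 : ℤ) ^ j ∣ 3 ^ j * v)
      rwa [show u * 2 ^ t * x - (u * (d * (Wo w : ℤ)) + 3 ^ j * v) + 3 ^ j * v
        = u * (2 ^ t * x - d * Wo w) by ring] at h5
    obtain ⟨M, hM⟩ := (hu.symm.pow_left (m := j)).dvd_of_dvd_mul_left hj2
    refine ⟨M, hM, ?_⟩
    have h6 : u * 2 ^ t * x - (u * (d * (Wo w : ℤ)) + 3 ^ j * v) = 3 ^ j * (u * M - v) := by
      linear_combination u * hM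
    rw [h6, pow_add] at hx
    exact (mul_dvd_mul_iff_left h3jz).1 hx
  have heq : ∑ M ∈ (Oc A n u v).filter (fun M => (2 : ℤ) ^ t ∣ 3 ^ j * M + d * Wo w),
        Ψ ((3 ^ j * M + d * Wo w) / 2 ^ t)
      = ∑ x ∈ cl (L + s) (2 * L + s) (j + n) (u * 2 ^ t) (u * (d * Wo w) + 3 ^ j * v), Ψ x := by
    apply sum_nbij' (fun M => (3 ^ j * M + d * Wo w) / 2 ^ t) (fun x => (2 ^ t * x - d * Wo w) / 3 ^ j)
    · intro M hM
      rw [mem_filter, mem_Oc] at hM
      obtain ⟨⟨⟨⟨hM1, hM2⟩, hM3⟩, hM4⟩, y, hy⟩ := hM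
      rw [mem_cl, hy, Int.mul_ediv_cancel_left _ h2z.ne']
      have hyR : (3 : ℝ) ^ j * M + d * Wo w = 2 ^ t * y := by exact_mod_cast hy
      have hyy : (y : ℝ) = (3 ^ j * M + d * Wo w) / 2 ^ t := by
        rw [eq_div_iff h2t.ne']; linarith
      refine ⟨⟨?_, ?_⟩, ?_⟩
      · rw [hyy, hL, hs, ← add_div]
        apply div_le_div_of_nonneg_right _ h2t.le
        have := mul_le_mul_of_nonneg_right hM1 h3j.le
        linarith
      · rw [hyy, hL, hs, ← mul_div_assoc, ← add_div]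
        apply div_lt_div_of_pos_right _ h2t
        have := mul_lt_mul_of_pos_right hM2 h3j
        linarith
      · have e1 : u * 2 ^ t * y - (u * (d * (Wo w : ℤ)) + 3 ^ j * v) = 3 ^ j * (u * M - v) := by
          linear_combination (-u) * hy
        rw [e1, pow_add]
        exact mul_dvd_mul_left _ hM4
    · intro x hx
      rw [mem_cl] at hx
      obtain ⟨⟨hx1, hx2⟩, hx3⟩ := hx
      obtain ⟨M, hM, hMv⟩ := hkey x hx3
      rw [hM, Int.mul_ediv_cancel_left _ h3jz, mem_filter, mem_Oc]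
      have hMR : (2 : ℝ) ^ t * x - d * Wo w = 3 ^ j * M := by exact_mod_cast hM
      have hdv : (2 : ℤ) ^ t ∣ 3 ^ j * M + d * Wo w := ⟨x, by linarith⟩
      refine ⟨⟨⟨⟨?_, ?_⟩, ?_⟩, hMv⟩, hdv⟩
      · have h4 : (A * 3 ^ j + d * Wo w) / 2 ^ t ≤ x := by
          have : (A * 3 ^ j + d * Wo w) / 2 ^ t = L + s := by rw [hL, hs, ← add_div]
          rw [this]; exact hx1
        rw [div_le_iff₀ h2t] at h4
        have h5 : A * 3 ^ j ≤ (M : ℝ) * 3 ^ j := by linarith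
        exact le_of_mul_le_mul_right h5 h3j
      · have h4 : (x : ℝ) < (2 * (A * 3 ^ j) + d * Wo w) / 2 ^ t := by
          have : (2 * (A * 3 ^ j) + d * Wo w) / 2 ^ t = 2 * L + s := by
            rw [hL, hs, ← mul_div_assoc, ← add_div]
          rw [this]; exact hx2
        rw [lt_div_iff₀ h2t] at h4
        have h5 : (M : ℝ) * 3 ^ j < (2 * A) * 3 ^ j := by linarith
        exact lt_of_mul_lt_mul_right h5 h3j.le
      · have hW := Wo_odd h2 hne
        have h4 : (2 : ℤ) ∣ 3 ^ j * M + d * Wo w := (dvd_pow_self 2 (by omega)).trans hdv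
        have h8 : (Wo w : ℤ) % 2 = 1 := by exact_mod_cast hW
        have h9 : (d * Wo w) % 2 = 1 := Pool.Agent.H499R2.CO.odd_mul hd h8
        rcases Int.emod_two_eq_zero_or_one M with h6 | h6
        · exfalso
          have h7 : ((3 : ℤ) ^ j * M) % 2 = 0 := Pool.Agent.H499R2.CO.even_mul h6
          omega
        · exact h6
    · intro M hM
      rw [mem_filter] at hM
      obtain ⟨_, y, hy⟩ := hM
      rw [hy, Int.mul_ediv_cancel_left _ h2z.ne', ← hy]
      rw [show (3 : ℤ) ^ j * M + d * Wo w - d * Wo w = 3 ^ j * M by ring]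
      exact Int.mul_ediv_cancel_left _ h3jz
    · intro x hx
      rw [mem_cl] at hx
      obtain ⟨_, hx3⟩ := hx
      obtain ⟨M, hM, _⟩ := hkey x hx3
      rw [hM, Int.mul_ediv_cancel_left _ h3jz, ← hM]
      rw [show (2 : ℤ) ^ t * x - d * Wo w + d * Wo w = 2 ^ t * x by ring]
      exact Int.mul_ediv_cancel_left _ h2z.ne'
    · intro M _
      rfl
  rw [heq]
  have hsabs : |s| ≤ |(d : ℝ)| * 3 ^ j := by
    rw [hs, abs_div, abs_mul, abs_of_pos h2t, div_le_iff₀ h2t, mul_assoc]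
    apply mul_le_mul_of_nonneg_left _ (abs_nonneg _)
    rw [abs_of_nonneg (by positivity)]
    have h4 := Pool.Agent.H499R2.ND.Wo_le h2
    rw [h1, h3] at h4
    have h5 : (3 / 2 : ℝ) ^ j ≤ 3 ^ j := pow_le_pow_left₀ (by norm_num) (by norm_num) j
    nlinarith
  have h6 := shift_sum hΨ (a := L + s) (a' := L) (b := 2 * L + s) (b' := 2 * L) (K := |(d : ℝ)| * 3 ^ j)
    (by rw [add_sub_cancel_left]; exact hsabs) (by rw [add_sub_cancel_left]; exact hsabs) (j + n)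
    (cop_mul hu t) (u * (d * Wo w) + 3 ^ j * v)
  refine h6.trans ?_
  have h7 : |(d : ℝ)| * 3 ^ j / 3 ^ (j + n) ≤ |(d : ℝ)| := by
    rw [pow_add, div_le_iff₀ (by positivity)]
    have h8 : (1 : ℝ) ≤ 3 ^ n := one_le_pow₀ (by norm_num)
    have h9 : 0 ≤ |(d : ℝ)| * 3 ^ j := by positivity
    nlinarith
  linarith

/-- mixing for a fixed size and length -/
theorem mixFC {d : ℤ} (hd3 : IsCoprime d 3) {Ψ : ℤ → ℝ} (hΨ : ∀ x, |Ψ x| ≤ 1) {L : ℝ} (hL : 0 ≤ L)
    (c j m t n : ℕ) (hm : m ≤ j + n) {u : ℤ} (hu : IsCoprime u 3) (v : ℤ) :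
    |∑ w ∈ FWT c j t, ∑ x ∈ cl L (2 * L) (j + n) (u * 2 ^ t) (u * (d * Wo w) + 3 ^ j * v), Ψ x
      - (∑ w ∈ FWT c j t, ∑ x ∈ cl L (2 * L) m (u * 2 ^ t) (u * (d * Wo w) + 3 ^ j * v), Ψ x)
          / 3 ^ (j + n - m)|
      ≤ 2 ^ t * (L / 3 ^ (j + n) + 1) * dev (FWT c j t) wwt (fun w => (Wo w : ℤ)) (j + n) m := by
  classical
  have hD3 : IsCoprime (u * d) 3 := IsCoprime.mul_left hu hd3
  obtain ⟨p, q, hpq⟩ : IsCoprime (u * d) ((3 : ℤ) ^ (j + n)) := hD3.pow_right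
  set W : Finset ℤ := Ico ⌈L⌉ ⌈2 * L⌉ with hWdef
  set e : ℤ → ℤ := fun x => p * (u * 2 ^ t * x - 3 ^ j * v) with he
  have hwt : ∀ w ∈ FWT c j t, wwt w = (1 / 2 : ℝ) ^ t := by
    intro w hw
    unfold wwt
    rw [(FWT_props hw).2.2]
  have hpcop : IsCoprime ((3 : ℤ) ^ (j + n)) p := ⟨q, u * d, by linarith⟩
  have hgen : ∀ l : ℕ, l ≤ j + n →
      ∑ w ∈ FWT c j t, ∑ x ∈ cl L (2 * L) l (u * 2 ^ t) (u * (d * Wo w) + 3 ^ j * v), Ψ x
        = ∑ x ∈ W, Ψ x * (2 ^ t * cnt (FWT c j t) wwt (fun w => (Wo w : ℤ)) l (e x)) := by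
    intro l hl
    have hdm : (3 : ℤ) ^ l ∣ 3 ^ (j + n) := pow_dvd_pow 3 hl
    have hiff : ∀ (x : ℤ) (w : List ℕ), ((3 : ℤ) ^ l ∣ u * 2 ^ t * x - (u * (d * (Wo w : ℤ)) + 3 ^ j * v) ↔
        (3 : ℤ) ^ l ∣ (Wo w : ℤ) - e x) := by
      intro x w
      have hdcop' : IsCoprime ((3 : ℤ) ^ l) (u * d) := hD3.symm.pow_left
      have key : (3 : ℤ) ^ l ∣ (u * 2 ^ t * x - (u * (d * (Wo w : ℤ)) + 3 ^ j * v))
          + (u * d) * ((Wo w : ℤ) - e x) := by
        have : (u * 2 ^ t * x - (u * (d * (Wo w : ℤ)) + 3 ^ j * v)) + (u * d) * ((Wo w : ℤ) - e x)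
            = 3 ^ (j + n) * (q * (u * 2 ^ t * x - 3 ^ j * v)) := by
          rw [he]
          linear_combination (-(u * 2 ^ t * x - 3 ^ j * v)) * hpq
        rw [this]
        exact hdm.mul_right _
      constructor
      · intro h
        apply hdcop'.dvd_of_dvd_mul_left
        have := dvd_sub key h
        rwa [add_sub_cancel_left] at this
      · intro h
        have := dvd_sub key (h.mul_left (u * d))
        rwa [add_sub_cancel_right] at this
    calc ∑ w ∈ FWT c j t, ∑ x ∈ cl L (2 * L) l (u * 2 ^ t) (u * (d * Wo w) + 3 ^ j * v), Ψ x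
        = ∑ w ∈ FWT c j t, ∑ x ∈ W,
            (if (3 : ℤ) ^ l ∣ u * 2 ^ t * x - (u * (d * (Wo w : ℤ)) + 3 ^ j * v) then Ψ x else 0) := by
          apply sum_congr rfl
          intro w _
          rw [← sum_filter]
          rfl
      _ = ∑ x ∈ W, ∑ w ∈ FWT c j t,
            (if (3 : ℤ) ^ l ∣ u * 2 ^ t * x - (u * (d * (Wo w : ℤ)) + 3 ^ j * v) then Ψ x else 0) :=
          sum_comm
      _ = _ := by
          apply sum_congr rfl
          intro x _
          unfold cnt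
          rw [mul_sum, mul_sum]
          apply sum_congr rfl
          intro w hw
          rw [hwt w hw]
          by_cases h : (3 : ℤ) ^ l ∣ u * 2 ^ t * x - (u * (d * (Wo w : ℤ)) + 3 ^ j * v)
          · rw [if_pos h, if_pos ((hiff x w).1 h), ← mul_pow]; norm_num
          · rw [if_neg h, if_neg (fun h' => h ((hiff x w).2 h')), mul_zero, mul_zero]
  rw [hgen (j + n) le_rfl, hgen m hm]
  have h3n : (0 : ℝ) < 3 ^ (j + n - m) := by positivity
  have hT : (0 : ℝ) < 2 ^ t := by positivity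
  have hdiff : ∑ x ∈ W, |cnt (FWT c j t) wwt (fun w => (Wo w : ℤ)) (j + n) (e x)
        - cnt (FWT c j t) wwt (fun w => (Wo w : ℤ)) m (e x) / 3 ^ (j + n - m)|
      ≤ (L / 3 ^ (j + n) + 1) * dev (FWT c j t) wwt (fun w => (Wo w : ℤ)) (j + n) m := by
    unfold dev
    apply sum_periodic_le (g := fun r => |cnt (FWT c j t) wwt (fun w => (Wo w : ℤ)) (j + n) r
        - cnt (FWT c j t) wwt (fun w => (Wo w : ℤ)) m r / 3 ^ (j + n - m)|)
    · intro r
      rcases Nat.eq_zero_or_pos (j + n) with hj0 | hj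
      · rw [hj0]
        have h1 : ((W.filter (fun x => (3 : ℤ) ^ 0 ∣ e x - r)).card : ℝ) ≤ (cl L (2 * L) 0 1 0).card := by
          have : W.filter (fun x => (3 : ℤ) ^ 0 ∣ e x - r) ⊆ cl L (2 * L) 0 1 0 := by
            intro x hx
            rw [mem_filter, hWdef] at hx
            unfold cl
            rw [mem_filter]
            exact ⟨hx.1, by simp⟩
          exact_mod_cast card_le_card this
        have h2 := cl_card_le (by linarith : L ≤ 2 * L) 0 isCoprime_one_left (0 : ℤ)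
        rw [show 2 * L - L = L by ring] at h2
        exact h1.trans h2
      · have hpc : IsCoprime (p * (u * 2 ^ t)) 3 := by
          apply IsCoprime.mul_left
          · exact hpcop.symm.of_isCoprime_of_dvd_right (dvd_pow_self 3 (by omega))
          · exact cop_mul hu t
        have h1 := cl_card_le (by linarith : L ≤ 2 * L) (j + n) hpc (r + p * (3 ^ j * v))
        rw [show 2 * L - L = L by ring] at h1
        have h2 : W.filter (fun x => (3 : ℤ) ^ (j + n) ∣ e x - r)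
            ⊆ cl L (2 * L) (j + n) (p * (u * 2 ^ t)) (r + p * (3 ^ j * v)) := by
          intro x hx
          rw [mem_filter, hWdef] at hx
          unfold cl
          rw [mem_filter]
          refine ⟨hx.1, ?_⟩
          have := hx.2
          rw [he] at this
          rw [show p * (u * 2 ^ t) * x - (r + p * (3 ^ j * v)) = p * (u * 2 ^ t * x - 3 ^ j * v) - r by
            ring]
          exact this
        have h4 : ((W.filter (fun x => (3 : ℤ) ^ (j + n) ∣ e x - r)).card : ℝ)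
            ≤ (cl L (2 * L) (j + n) (p * (u * 2 ^ t)) (r + p * (3 ^ j * v))).card := by
          exact_mod_cast card_le_card h2
        exact h4.trans h1
    · intro r; exact abs_nonneg _
    · intro r r' hcc
      have h1 := cnt_congr (s := FWT c j t) (wt := wwt) (fun w => (Wo w : ℤ)) (j + n) hcc
      have h2 := cnt_congr (s := FWT c j t) (wt := wwt) (fun w => (Wo w : ℤ)) m
        ((pow_dvd_pow 3 hm).trans hcc)
      rw [h1, h2]
  rw [sum_div, ← sum_sub_distrib]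
  refine (abs_sum_le_sum_abs _ _).trans ?_
  calc ∑ x ∈ W, |Ψ x * (2 ^ t * cnt (FWT c j t) wwt (fun w => (Wo w : ℤ)) (j + n) (e x))
        - Ψ x * (2 ^ t * cnt (FWT c j t) wwt (fun w => (Wo w : ℤ)) m (e x)) / 3 ^ (j + n - m)|
      ≤ ∑ x ∈ W, 2 ^ t * |cnt (FWT c j t) wwt (fun w => (Wo w : ℤ)) (j + n) (e x)
        - cnt (FWT c j t) wwt (fun w => (Wo w : ℤ)) m (e x) / 3 ^ (j + n - m)| := by
        apply sum_le_sum
        intro x _
        have e1 : Ψ x * (2 ^ t * cnt (FWT c j t) wwt (fun w => (Wo w : ℤ)) (j + n) (e x))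
            - Ψ x * (2 ^ t * cnt (FWT c j t) wwt (fun w => (Wo w : ℤ)) m (e x)) / 3 ^ (j + n - m)
            = Ψ x * (2 ^ t * (cnt (FWT c j t) wwt (fun w => (Wo w : ℤ)) (j + n) (e x)
              - cnt (FWT c j t) wwt (fun w => (Wo w : ℤ)) m (e x) / 3 ^ (j + n - m))) := by ring
        rw [e1, abs_mul, abs_mul, abs_of_pos hT]
        calc |Ψ x| * (2 ^ t * |cnt (FWT c j t) wwt (fun w => (Wo w : ℤ)) (j + n) (e x)
              - cnt (FWT c j t) wwt (fun w => (Wo w : ℤ)) m (e x) / 3 ^ (j + n - m)|)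
            ≤ 1 * (2 ^ t * |cnt (FWT c j t) wwt (fun w => (Wo w : ℤ)) (j + n) (e x)
              - cnt (FWT c j t) wwt (fun w => (Wo w : ℤ)) m (e x) / 3 ^ (j + n - m)|) :=
              mul_le_mul_of_nonneg_right (hΨ x) (by positivity)
          _ = _ := one_mul _
    _ = 2 ^ t * ∑ x ∈ W, |cnt (FWT c j t) wwt (fun w => (Wo w : ℤ)) (j + n) (e x)
        - cnt (FWT c j t) wwt (fun w => (Wo w : ℤ)) m (e x) / 3 ^ (j + n - m)| := by rw [mul_sum]
    _ ≤ 2 ^ t * ((L / 3 ^ (j + n) + 1) * dev (FWT c j t) wwt (fun w => (Wo w : ℤ)) (j + n) m) :=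
        mul_le_mul_of_nonneg_left hdiff hT.le
    _ = _ := by ring

theorem sum_wwt_FWT (c j t : ℕ) : ∑ w ∈ FWT c j t, wwt w = ((FWT c j t).card : ℝ) / 2 ^ t := by
  have : ∀ w ∈ FWT c j t, wwt w = 1 / 2 ^ t := by
    intro w hw
    unfold wwt
    rw [(FWT_props hw).2.2, one_div, inv_pow, one_div]
  rw [sum_congr rfl this, sum_const, nsmul_eq_mul]
  ring

/-- all words of a given length and size -/
theorem one_j {d : ℤ} (hd : d % 2 = 1) (hd3 : IsCoprime d 3) {A : ℝ} (hA : 0 ≤ A) {c t : ℕ}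
    (m n j : ℕ) (ht : 1 ≤ t) (hmj : m ≤ j + n) {Ψ : ℤ → ℝ} (hΨ : ∀ x, |Ψ x| ≤ 1) {δ : ℝ}
    {u : ℤ} (hu : IsCoprime u 3) (v : ℤ)
    (h : ∀ b : ℤ, |∑ x ∈ cl (A * 3 ^ j / 2 ^ t) (2 * (A * 3 ^ j / 2 ^ t)) m 1 b, Ψ x|
      ≤ δ * (A * 3 ^ j / 2 ^ t) / 3 ^ m) :
    |∑ w ∈ FWT c j t, ∑ M ∈ (Oc A n u v).filter (fun M => (2 : ℤ) ^ t ∣ 3 ^ j * M + d * Wo w),
        Ψ ((3 ^ j * M + d * Wo w) / 2 ^ t)|
      ≤ δ * A / 3 ^ n * (((FWT c j t).card : ℝ) / 2 ^ t)
        + (A / 3 ^ n + 2 ^ t) * dev (FWT c j t) wwt (fun w => (Wo w : ℤ)) (j + n) m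
        + 2 * (|(d : ℝ)| + 1) * (FWT c j t).card := by
  set L := A * 3 ^ j / 2 ^ t with hL
  have hLn : 0 ≤ L := by rw [hL]; positivity
  have h3j : (0 : ℝ) < 3 ^ j := by positivity
  have hLj : L / 3 ^ (j + n) = A / 3 ^ n / 2 ^ t := by rw [hL, pow_add]; field_simp
  have hword : |∑ w ∈ FWT c j t, ∑ M ∈ (Oc A n u v).filter (fun M => (2 : ℤ) ^ t ∣ 3 ^ j * M + d * Wo w),
          Ψ ((3 ^ j * M + d * Wo w) / 2 ^ t)
        - ∑ w ∈ FWT c j t, ∑ x ∈ cl L (2 * L) (j + n) (u * 2 ^ t) (u * (d * Wo w) + 3 ^ j * v), Ψ x|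
      ≤ 2 * (|(d : ℝ)| + 1) * (FWT c j t).card := by
    rw [← sum_sub_distrib]
    refine (abs_sum_le_sum_abs _ _).trans ?_
    calc ∑ w ∈ FWT c j t, |∑ M ∈ (Oc A n u v).filter (fun M => (2 : ℤ) ^ t ∣ 3 ^ j * M + d * Wo w),
          Ψ ((3 ^ j * M + d * Wo w) / 2 ^ t)
        - ∑ x ∈ cl L (2 * L) (j + n) (u * 2 ^ t) (u * (d * Wo w) + 3 ^ j * v), Ψ x|
        ≤ ∑ _w ∈ FWT c j t, 2 * (|(d : ℝ)| + 1) :=
          sum_le_sum fun w hw => one_wordC hd c j t n ht hΨ hw hu v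
      _ = _ := by rw [sum_const, nsmul_eq_mul]; ring
  have hmix := mixFC hd3 hΨ hLn c j m t n hmj hu v
  have hcoef : 2 ^ t * (L / 3 ^ (j + n) + 1) = A / 3 ^ n + 2 ^ t := by
    rw [hLj]; field_simp
  rw [hcoef] at hmix
  have hmain : |(∑ w ∈ FWT c j t, ∑ x ∈ cl L (2 * L) m (u * 2 ^ t) (u * (d * Wo w) + 3 ^ j * v), Ψ x)
      / 3 ^ (j + n - m)| ≤ δ * A / 3 ^ n * (((FWT c j t).card : ℝ) / 2 ^ t) := by
    rw [abs_div, abs_of_pos (by positivity : (0 : ℝ) < 3 ^ (j + n - m)), div_le_iff₀ (by positivity)]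
    refine (abs_sum_le_sum_abs _ _).trans ?_
    calc ∑ w ∈ FWT c j t, |∑ x ∈ cl L (2 * L) m (u * 2 ^ t) (u * (d * Wo w) + 3 ^ j * v), Ψ x|
        ≤ ∑ _w ∈ FWT c j t, δ * L / 3 ^ m := by
          apply sum_le_sum
          intro w _
          obtain ⟨b, hb⟩ := cl_one m (cop_mul hu t) (u * (d * Wo w) + 3 ^ j * v)
          rw [hb]
          exact h b
      _ = (FWT c j t).card * (δ * L / 3 ^ m) := by rw [sum_const, nsmul_eq_mul]
      _ = δ * A / 3 ^ n * (((FWT c j t).card : ℝ) / 2 ^ t) * 3 ^ (j + n - m) := by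
          have h3 : (3 : ℝ) ^ j * 3 ^ n = 3 ^ (j + n - m) * 3 ^ m := by
            rw [← pow_add, ← pow_add]; congr 1; omega
          have h4 : (3 : ℝ) ^ j = 3 ^ (j + n - m) * 3 ^ m / 3 ^ n := by
            rw [← h3]; field_simp
          rw [hL, h4]
          field_simp
  have a1 := abs_le.1 hword
  have a2 := abs_le.1 hmix
  have a3 := abs_le.1 hmain
  rw [abs_le]
  constructor <;> linarith [a1.1, a1.2, a2.1, a2.2, a3.1, a3.2]

/-- the trivial bound -/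
theorem one_j_triv {d : ℤ} (hd : d % 2 = 1) {A : ℝ} (hA : 0 ≤ A) {c t : ℕ}
    (n j : ℕ) (ht : 1 ≤ t) {Ψ : ℤ → ℝ} (hΨ : ∀ x, |Ψ x| ≤ 1) {u : ℤ} (hu : IsCoprime u 3) (v : ℤ) :
    |∑ w ∈ FWT c j t, ∑ M ∈ (Oc A n u v).filter (fun M => (2 : ℤ) ^ t ∣ 3 ^ j * M + d * Wo w),
        Ψ ((3 ^ j * M + d * Wo w) / 2 ^ t)|
      ≤ A / 3 ^ n * (((FWT c j t).card : ℝ) / 2 ^ t) + (2 * |(d : ℝ)| + 3) * (FWT c j t).card := by
  set L := A * 3 ^ j / 2 ^ t with hL
  have hLn : 0 ≤ L := by rw [hL]; positivity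
  have hLj : L / 3 ^ (j + n) = A / 3 ^ n / 2 ^ t := by rw [hL, pow_add]; field_simp
  refine (abs_sum_le_sum_abs _ _).trans ?_
  calc ∑ w ∈ FWT c j t, |∑ M ∈ (Oc A n u v).filter (fun M => (2 : ℤ) ^ t ∣ 3 ^ j * M + d * Wo w),
        Ψ ((3 ^ j * M + d * Wo w) / 2 ^ t)|
      ≤ ∑ _w ∈ FWT c j t, (A / 3 ^ n / 2 ^ t + 1 + 2 * (|(d : ℝ)| + 1)) := by
        apply sum_le_sum
        intro w hw
        have h1 := one_wordC (A := A) hd c j t n ht hΨ hw hu v
        have h2 : |∑ x ∈ cl L (2 * L) (j + n) (u * 2 ^ t) (u * (d * Wo w) + 3 ^ j * v), Ψ x|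
            ≤ A / 3 ^ n / 2 ^ t + 1 := by
          refine (abs_sum_le_card hΨ _).trans ?_
          have := cl_card_le (by linarith : L ≤ 2 * L) (j + n) (cop_mul hu t) (u * (d * Wo w) + 3 ^ j * v)
          rw [show 2 * L - L = L by ring, hLj] at this
          exact this
        have a1 := abs_le.1 h1
        have a2 := abs_le.1 h2
        rw [abs_le]
        constructor <;> linarith [a1.1, a1.2, a2.1, a2.2]
    _ = _ := by rw [sum_const, nsmul_eq_mul]; ring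

/-- the defect at time `t`, with `n` more digits -/
noncomputable def DfC (c m n t : ℕ) : ℝ :=
  ∑ j ∈ Ico m (t + 1), dev (FWT c j t) wwt (fun w => (Wo w : ℤ)) (j + n) m
    + ∑ j ∈ range m, ∑ w ∈ FWT c j t, wwt w

theorem DfC_nonneg (c m n t : ℕ) : 0 ≤ DfC c m n t := by
  unfold DfC
  apply add_nonneg
  · exact sum_nonneg fun _ _ => dev_nonneg _ _ _ _ _
  · exact sum_nonneg fun _ _ => sum_nonneg fun w _ => (Pool.Agent.R344.SP.wwt_pos w).le

/-- the defect, averaged over the number of initial halvings -/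
noncomputable def DgC (c m n : ℕ) : ℕ → ℝ
  | 0 => 1
  | t + 1 => DfC c m n (t + 1) + DgC c m n t / 2

theorem DgC_nonneg (c m n : ℕ) : ∀ t, 0 ≤ DgC c m n t
  | 0 => by simp [DgC]
  | t + 1 => by
    have := DgC_nonneg c m n t
    have := DfC_nonneg c m n (t + 1)
    unfold DgC; positivity

theorem odd_mainC {d : ℤ} (hd : d % 2 = 1) (hd3 : IsCoprime d 3) {A : ℝ} (hA : 0 ≤ A) {c t : ℕ}
    (m n j₀ : ℕ) (ht : 1 ≤ t) (hc : t ≤ c) {Ψ : ℤ → ℝ} (hΨ : ∀ x, |Ψ x| ≤ 1) {δ : ℝ} (hδ : 0 ≤ δ)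
    {u : ℤ} (hu : IsCoprime u 3) (v : ℤ)
    (h : ∀ j, j₀ ≤ j → ∀ b : ℤ, |∑ x ∈ cl (A * 3 ^ j / 2 ^ t) (2 * (A * 3 ^ j / 2 ^ t)) m 1 b, Ψ x|
      ≤ δ * (A * 3 ^ j / 2 ^ t) / 3 ^ m) :
    |∑ M ∈ (Oc A n u v).filter (fun M => j₀ ≤ od d t M), Ψ ((Tz d)^[t] M)|
      ≤ δ * A / 3 ^ n + (A / 3 ^ n + 2 ^ t) * DfC c m n t + (2 * |(d : ℝ)| + 3) * 2 ^ t := by
  have h2t : (0 : ℝ) < 2 ^ t := by positivity
  rw [partition hd hc (Oc A n u v) (fun M hM => (mem_Oc.1 hM).1.2) j₀ Ψ]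
  set N : ℕ → ℝ := fun j => ((FWT c j t).card : ℝ) with hN
  have hNn : ∀ j, 0 ≤ N j := fun j => by rw [hN]; positivity
  set dv : ℕ → ℝ := fun j => dev (FWT c j t) wwt (fun w => (Wo w : ℤ)) (j + n) m with hdv
  have hdvn : ∀ j, 0 ≤ dv j := fun j => dev_nonneg _ _ _ _ _
  have hA3 : 0 ≤ A / 3 ^ n := by positivity
  have hone : ∀ j ∈ Ico j₀ (t + 1),
      |∑ w ∈ FWT c j t, ∑ M ∈ (Oc A n u v).filter (fun M => (2 : ℤ) ^ t ∣ 3 ^ j * M + d * Wo w),
            Ψ ((3 ^ j * M + d * Wo w) / 2 ^ t)|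
      ≤ δ * A / 3 ^ n * (N j / 2 ^ t)
        + (if m ≤ j then (A / 3 ^ n + 2 ^ t) * dv j else A / 3 ^ n * (N j / 2 ^ t))
        + (2 * |(d : ℝ)| + 3) * N j := by
    intro j hj
    rw [mem_Ico] at hj
    have h6 : 0 ≤ N j := hNn j
    split_ifs with hmj
    · have h5 := one_j (c := c) hd hd3 hA m n j ht (by omega) hΨ hu v (h j hj.1)
      refine h5.trans ?_
      change δ * A / 3 ^ n * (N j / 2 ^ t) + (A / 3 ^ n + 2 ^ t) * dv j + 2 * (|(d : ℝ)| + 1) * N j ≤ _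
      nlinarith
    · have h5 := one_j_triv (c := c) (A := A) hd hA n j ht hΨ hu v
      have h7 : 0 ≤ δ * A / 3 ^ n * (N j / 2 ^ t) := by positivity
      refine h5.trans ?_
      change A / 3 ^ n * (N j / 2 ^ t) + (2 * |(d : ℝ)| + 3) * N j ≤ _
      linarith
  refine (abs_sum_le_sum_abs _ _).trans ((sum_le_sum hone).trans ?_)
  rw [sum_add_distrib, sum_add_distrib, ← mul_sum, ← mul_sum]
  have hwc : ∑ j ∈ range (t + 1), N j ≤ 2 ^ t := by
    have := words_card (c := c) ht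
    have h' : ((∑ j ∈ range (t + 1), (FWT c j t).card : ℕ) : ℝ) ≤ ((2 ^ t : ℕ) : ℝ) := by
      exact_mod_cast this
    push_cast at h'
    exact h'
  have hsubr : Ico j₀ (t + 1) ⊆ range (t + 1) := by
    intro j hj
    rw [mem_Ico] at hj
    rw [mem_range]; exact hj.2
  have hNs : ∑ j ∈ Ico j₀ (t + 1), N j ≤ 2 ^ t :=
    (sum_le_sum_of_subset_of_nonneg hsubr fun j _ _ => hNn j).trans hwc
  have h1 : δ * A / 3 ^ n * ∑ j ∈ Ico j₀ (t + 1), N j / 2 ^ t ≤ δ * A / 3 ^ n := by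
    rw [← sum_div]
    have : (∑ j ∈ Ico j₀ (t + 1), N j) / 2 ^ t ≤ 1 := by
      rw [div_le_one h2t]; exact hNs
    have h0 : 0 ≤ δ * A / 3 ^ n := by positivity
    nlinarith
  have h2 : (2 * |(d : ℝ)| + 3) * ∑ j ∈ Ico j₀ (t + 1), N j ≤ (2 * |(d : ℝ)| + 3) * 2 ^ t :=
    mul_le_mul_of_nonneg_left hNs (by positivity)
  have h3 : ∑ j ∈ Ico j₀ (t + 1),
      (if m ≤ j then (A / 3 ^ n + 2 ^ t) * dv j else A / 3 ^ n * (N j / 2 ^ t))
      ≤ (A / 3 ^ n + 2 ^ t) * DfC c m n t := by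
    calc ∑ j ∈ Ico j₀ (t + 1),
          (if m ≤ j then (A / 3 ^ n + 2 ^ t) * dv j else A / 3 ^ n * (N j / 2 ^ t))
        ≤ ∑ j ∈ range (t + 1),
          (if m ≤ j then (A / 3 ^ n + 2 ^ t) * dv j else A / 3 ^ n * (N j / 2 ^ t)) := by
          apply sum_le_sum_of_subset_of_nonneg hsubr
          intro j _ _
          have := hdvn j
          have := hNn j
          split_ifs <;> positivity
      _ = ∑ j ∈ (range (t + 1)).filter (fun j => m ≤ j), (A / 3 ^ n + 2 ^ t) * dv j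
          + ∑ j ∈ (range (t + 1)).filter (fun j => ¬ m ≤ j), A / 3 ^ n * (N j / 2 ^ t) := by
          rw [sum_ite]
      _ ≤ ∑ j ∈ Ico m (t + 1), (A / 3 ^ n + 2 ^ t) * dv j
          + ∑ j ∈ range m, (A / 3 ^ n + 2 ^ t) * (N j / 2 ^ t) := by
          apply add_le_add
          · apply sum_le_sum_of_subset_of_nonneg
            · intro j hj
              rw [mem_filter, mem_range] at hj
              rw [mem_Ico]; omega
            · intro j _ _
              have := hdvn j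
              positivity
          · calc ∑ j ∈ (range (t + 1)).filter (fun j => ¬ m ≤ j), A / 3 ^ n * (N j / 2 ^ t)
                ≤ ∑ j ∈ (range (t + 1)).filter (fun j => ¬ m ≤ j),
                    (A / 3 ^ n + 2 ^ t) * (N j / 2 ^ t) := by
                  apply sum_le_sum
                  intro j _
                  have := hNn j
                  apply mul_le_mul_of_nonneg_right _ (by positivity)
                  linarith
              _ ≤ _ := by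
                  apply sum_le_sum_of_subset_of_nonneg
                  · intro j hj
                    rw [mem_filter, mem_range] at hj
                    rw [mem_range]; omega
                  · intro j _ _
                    have := hNn j
                    positivity
      _ = _ := by
          unfold DfC
          rw [← mul_sum, ← mul_sum, ← mul_add]
          congr 2
          apply sum_congr rfl
          intro j _
          exact (sum_wwt_FWT c j t).symm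
  linarith

/-- THE LAW OF THE `t`-TH ITERATE, starting points in a class -/
theorem all_mainC {d : ℤ} (hd : d % 2 = 1) (hd3 : IsCoprime d 3) {c : ℕ}
    (m n j₀ : ℕ) {Ψ : ℤ → ℝ} (hΨ : ∀ x, |Ψ x| ≤ 1) {δ : ℝ} (hδ : 0 ≤ δ) :
    ∀ (t : ℕ), t ≤ c → ∀ {A : ℝ}, 0 ≤ A → ∀ {u : ℤ}, IsCoprime u 3 → ∀ v : ℤ,
    (∀ j, j₀ ≤ j → ∀ b : ℤ, |∑ x ∈ cl (A * 3 ^ j / 2 ^ t) (2 * (A * 3 ^ j / 2 ^ t)) m 1 b, Ψ x|
      ≤ δ * (A * 3 ^ j / 2 ^ t) / 3 ^ m) →
    |∑ n ∈ (cl A (2 * A) n u v).filter (fun n => j₀ ≤ od d t n), Ψ ((Tz d)^[t] n)|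
      ≤ 2 * δ * A / 3 ^ n + (A / 3 ^ n + 2 ^ t) * DgC c m n t + (2 * |(d : ℝ)| + 3) * 2 ^ (t + 1) := by
  intro t
  induction t with
  | zero =>
    intro _ A hA u hu v _
    have h1 : |∑ n ∈ (cl A (2 * A) n u v).filter (fun n => j₀ ≤ od d 0 n), Ψ ((Tz d)^[0] n)|
        ≤ A / 3 ^ n + 1 := by
      simp only [Function.iterate_zero, id]
      refine (abs_sum_le_card hΨ _).trans ?_
      have h2 := cl_card_le (by linarith : A ≤ 2 * A) n hu v
      rw [show 2 * A - A = A by ring] at h2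
      refine le_trans ?_ h2
      exact_mod_cast card_le_card (filter_subset _ _)
    have h2 : 0 ≤ 2 * δ * A / 3 ^ n := by positivity
    have h3 : 0 ≤ (2 * |(d : ℝ)| + 3) * 2 ^ (0 + 1) := by positivity
    have h4 : (A / 3 ^ n + 2 ^ 0) * DgC c m n 0 = A / 3 ^ n + 1 := by simp [DgC]
    rw [h4]
    exact h1.trans (le_add_of_le_of_nonneg (le_add_of_nonneg_left h2) h3)
  | succ t ih =>
    intro hc A hA u hu v h
    have hodd := odd_mainC hd hd3 hA m n j₀ (by omega : 1 ≤ t + 1) hc hΨ hδ hu v h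
    have hwin : ∀ j : ℕ, A / 2 * 3 ^ j / 2 ^ t = A * 3 ^ j / 2 ^ (t + 1) := by
      intro j; rw [pow_succ]; field_simp
    have hu2 : IsCoprime (u * 2) 3 := by
      have := cop_mul hu 1
      simpa using this
    have heven := ih (by omega) (A := A / 2) (by positivity) hu2 v (by
      intro j hj b
      rw [hwin]; exact h j hj b)
    have hsplit : ∑ n ∈ (cl A (2 * A) n u v).filter (fun n => j₀ ≤ od d (t + 1) n), Ψ ((Tz d)^[t + 1] n)
        = ∑ M ∈ (Oc A n u v).filter (fun M => j₀ ≤ od d (t + 1) M), Ψ ((Tz d)^[t + 1] M)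
          + ∑ n ∈ (cl (A / 2) (2 * (A / 2)) n (u * 2) v).filter (fun n => j₀ ≤ od d t n),
              Ψ ((Tz d)^[t] n) := by
      rw [← sum_filter_add_sum_filter_not ((cl A (2 * A) n u v).filter (fun n => j₀ ≤ od d (t + 1) n))
        (fun n => n % 2 = 1)]
      congr 1
      · apply sum_congr _ (fun _ _ => rfl)
        ext n
        simp only [mem_filter, mem_Oc, mem_cl]
        tauto
      · apply sum_nbij' (fun n => n / 2) (fun n => 2 * n)
        · intro n hn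
          rw [mem_filter, mem_filter, mem_cl] at hn
          obtain ⟨⟨⟨⟨h1, h2⟩, h5⟩, h3⟩, h4⟩ := hn
          obtain ⟨y, rfl⟩ : ∃ y, n = 2 * y := ⟨n / 2, by omega⟩
          have e1 : Tz d (2 * y) = y := by unfold Tz; rw [if_pos (by omega)]; omega
          rw [Int.mul_ediv_cancel_left _ (by norm_num), mem_filter, mem_cl]
          rw [od_succ', e1] at h3
          have e2 : ((2 * y) % 2).toNat = 0 := by
            have : (2 * y) % 2 = 0 := by omega
            rw [this]; rfl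
          rw [e2, add_zero] at h3
          push_cast at h1 h2
          exact ⟨⟨⟨by linarith, by linarith⟩, by rwa [mul_assoc]⟩, h3⟩
        · intro y hy
          rw [mem_filter, mem_cl] at hy
          obtain ⟨⟨⟨h1, h2⟩, h5⟩, h3⟩ := hy
          have e1 : Tz d (2 * y) = y := by unfold Tz; rw [if_pos (by omega)]; omega
          rw [mem_filter, mem_filter, mem_cl, od_succ', e1]
          push_cast
          rw [mul_assoc] at h5
          exact ⟨⟨⟨⟨by linarith, by linarith⟩, h5⟩, by omega⟩, by omega⟩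
        · intro n hn
          rw [mem_filter] at hn
          have := hn.2
          omega
        · intro y _
          exact Int.mul_ediv_cancel_left _ (by norm_num)
        · intro n hn
          rw [mem_filter] at hn
          have h1 := hn.2
          have e1 : Tz d n = n / 2 := by unfold Tz; rw [if_pos (by omega)]
          rw [Function.iterate_succ_apply, e1]
    rw [hsplit]
    have hDg : DgC c m n (t + 1) = DfC c m n (t + 1) + DgC c m n t / 2 := rfl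
    calc |∑ M ∈ (Oc A n u v).filter (fun M => j₀ ≤ od d (t + 1) M), Ψ ((Tz d)^[t + 1] M)
          + ∑ n ∈ (cl (A / 2) (2 * (A / 2)) n (u * 2) v).filter (fun n => j₀ ≤ od d t n),
              Ψ ((Tz d)^[t] n)|
        ≤ (δ * A / 3 ^ n + (A / 3 ^ n + 2 ^ (t + 1)) * DfC c m n (t + 1)
            + (2 * |(d : ℝ)| + 3) * 2 ^ (t + 1))
          + (2 * δ * (A / 2) / 3 ^ n + (A / 2 / 3 ^ n + 2 ^ t) * DgC c m n t
            + (2 * |(d : ℝ)| + 3) * 2 ^ (t + 1)) :=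
          (abs_add_le _ _).trans (add_le_add hodd heven)
      _ = _ := by
          rw [hDg, pow_succ 2 (t + 1), pow_succ 2 t]
          ring

end Pool.Agent.W5h47.SL
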