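import Pool.Agent.W5h47.SL.A
import Pool.Agent.R344.SP.E

/-! Laws of single iterates, part B: the defects are small at most times; every large time is the sum
of two good times. -/

set_option autoImplicit false

namespace Pool.Agent.W5h47.SL

open Pool.Agent.H320R2.PD Finset
open Pool.Agent.H499R2.CO (Tz)
open Pool.Agent.H499R2.ND (dev dev_le gam_all)
open Pool.Agent.R344.SP

theorem inv_sq_sum {m : ℕ} (hm : 1 ≤ m) : ∀ n : ℕ, m ≤ n →
    ∑ J ∈ Ico m n, (1 / (J : ℝ)) ^ 2 ≤ 2 / (m : ℝ) - 2 / (n : ℝ) := by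
  intro n hn
  have hm0 : (0 : ℝ) < m := by exact_mod_cast hm
  induction n, hn using Nat.le_induction with
  | base => simp
  | succ n hn ih =>
    rw [sum_Ico_succ_top hn]
    have hn0 : (0 : ℝ) < n := by
      have : 0 < n := by omega
      exact_mod_cast this
    have h1 : (1 : ℝ) ≤ n := by exact_mod_cast (hm.trans hn)
    have h2 : (1 / (n : ℝ)) ^ 2 ≤ 2 / n - 2 / ((n + 1 : ℕ) : ℝ) := by
      push_cast
      rw [div_sub_div _ _ (by positivity) (by positivity), div_pow, one_pow,
        div_le_div_iff₀ (by positivity) (by positivity)]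
      nlinarith
    linarith

theorem inv_sq_sum' {m n : ℕ} (hm : 1 ≤ m) (hn : m ≤ n) : ∑ J ∈ Ico m n, (1 / (J : ℝ)) ^ 2 ≤ 2 / (m : ℝ) := by
  have h := inv_sq_sum hm n hn
  have h2 : (0 : ℝ) ≤ 2 / (n : ℝ) := by positivity
  linarith

theorem dev_sumC : ∃ C : ℝ, 0 < C ∧ ∀ c j m n : ℕ, 1 ≤ m → m ≤ j → 3 * j ≤ c →
    ∑ T ∈ range (j * c + 1), dev (FWT c j T) wwt (fun w => (Wo w : ℤ)) (j + n) m
      ≤ C * (2 / m + n * ((n : ℝ) / j) ^ 2) := by
  obtain ⟨C, hC, hg⟩ := gam_all 4
  refine ⟨2 * Real.sqrt C, by positivity, fun c j m n hm hmj hc => ?_⟩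
  have hnn : ∀ T, ∀ w ∈ FWT c j T, 0 ≤ wwt w := fun T w _ => (Pool.Agent.R344.SP.wwt_pos w).le
  have hmass : ∑ T ∈ range (j * c + 1), ∑ w ∈ FWT c j T, wwt w ≤ 1 := by
    unfold FWT
    rw [sum_fiberwise_of_maps_to (g := fun w : List ℕ => w.sum)]
    · exact sum_wwt_le c j
    · intro w hw
      have := (sum_le_of_mem hw).2
      simp only [mem_range]
      omega
  have hj1 : 1 ≤ j := hm.trans hmj
  set a : ℕ → ℝ := fun J => if J < j then (1 / (J : ℝ)) ^ 2 else ((n : ℝ) / j) ^ 2 with ha
  have ha0 : ∀ J, 0 ≤ a J := by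
    intro J
    rw [ha]; dsimp only
    split_ifs <;> positivity
  have hgJ : ∀ J ∈ Ico m (j + n), gam c j J ≤ 2 * C * a J ^ 2 := by
    intro J hJ
    rw [mem_Ico] at hJ
    rw [ha]; dsimp only
    split_ifs with hlt
    · have h1 := hg j 0 J c J hj1 (by omega) hc le_rfl (by omega)
      have h2 : gam c j J ≤ C * (1 / (J : ℝ)) ^ 4 := by simpa using h1
      have h3 : ((1 / (J : ℝ)) ^ 2) ^ 2 = (1 / (J : ℝ)) ^ 4 := by rw [← pow_mul]
      rw [h3]
      have h4 : 0 ≤ C * (1 / (J : ℝ)) ^ 4 := by positivity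
      linarith
    · have hjJ : j ≤ J := not_lt.1 hlt
      have h1 := hg j n j c J hj1 hj1 hc hjJ hJ.2
      have hn1 : 1 ≤ n := by omega
      have h3 : (((n : ℝ) / j) ^ 2) ^ 2 = ((n : ℝ) / j) ^ 4 := by rw [← pow_mul]
      rw [h3]
      have h5 : (1 / (j : ℝ)) ^ 4 ≤ ((n : ℝ) / j) ^ 4 := by
        apply pow_le_pow_left₀ (by positivity)
        apply div_le_div_of_nonneg_right _ (by positivity)
        exact_mod_cast hn1
      have h6 : C * ((1 / (j : ℝ)) ^ 4 + ((n : ℝ) / j) ^ 4) ≤ C * (2 * ((n : ℝ) / j) ^ 4) := by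
        apply mul_le_mul_of_nonneg_left _ hC.le
        linarith
      linarith
  calc ∑ T ∈ range (j * c + 1), dev (FWT c j T) wwt (fun w => (Wo w : ℤ)) (j + n) m
      ≤ ∑ T ∈ range (j * c + 1), ∑ J ∈ Ico m (j + n), Real.sqrt (2 * ∑ i ∈ FWT c j T, wwt i)
          * Real.sqrt (Gam (FWT c j T) wwt (fun w => (Wo w : ℤ)) J) :=
        sum_le_sum fun T _ => dev_le _ (hnn T) m (j + n) (by omega)
    _ = ∑ J ∈ Ico m (j + n), ∑ T ∈ range (j * c + 1), Real.sqrt (2 * ∑ i ∈ FWT c j T, wwt i)
          * Real.sqrt (Gam (FWT c j T) wwt (fun w => (Wo w : ℤ)) J) := sum_comm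
    _ ≤ ∑ J ∈ Ico m (j + n), Real.sqrt 2 * Real.sqrt (gam c j J) := by
        apply sum_le_sum
        intro J _
        refine (Real.sum_sqrt_mul_sqrt_le (range (j * c + 1))
          (f := fun T => 2 * ∑ i ∈ FWT c j T, wwt i)
          (g := fun T => Gam (FWT c j T) wwt (fun w => (Wo w : ℤ)) J) ?_ ?_).trans ?_
        · intro T
          have := sum_nonneg (hnn T)
          positivity
        · intro T; exact Gam_nonneg _ J (hnn T)
        · apply mul_le_mul_of_nonneg_right _ (Real.sqrt_nonneg _)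
          apply Real.sqrt_le_sqrt
          rw [← mul_sum]
          linarith
    _ ≤ ∑ J ∈ Ico m (j + n), 2 * Real.sqrt C * a J := by
        apply sum_le_sum
        intro J hJ
        have h1 := hgJ J hJ
        rw [← Real.sqrt_mul (by norm_num)]
        calc Real.sqrt (2 * gam c j J) ≤ Real.sqrt (C * (2 * a J) ^ 2) := by
              apply Real.sqrt_le_sqrt
              linarith
          _ = 2 * Real.sqrt C * a J := by
              rw [Real.sqrt_mul hC.le, Real.sqrt_sq (by have := ha0 J; positivity)]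
              ring
    _ = 2 * Real.sqrt C * ∑ J ∈ Ico m (j + n), a J := by rw [mul_sum]
    _ ≤ 2 * Real.sqrt C * (2 / m + n * ((n : ℝ) / j) ^ 2) := by
        apply mul_le_mul_of_nonneg_left _ (by positivity)
        rw [← sum_Ico_consecutive a hmj (Nat.le_add_right j n)]
        apply add_le_add
        · refine le_trans (le_of_eq ?_) (inv_sq_sum' hm hmj)
          apply sum_congr rfl
          intro J hJ
          rw [mem_Ico] at hJ
          rw [ha]; dsimp only
          rw [if_pos hJ.2]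
        · apply le_of_eq
          have : ∀ J ∈ Ico j (j + n), a J = ((n : ℝ) / j) ^ 2 := by
            intro J hJ
            rw [mem_Ico] at hJ
            rw [ha]; dsimp only
            rw [if_neg (by omega)]
          rw [sum_congr rfl this, sum_const, Nat.card_Ico, nsmul_eq_mul]
          congr 2
          omega

theorem DfC_sum : ∃ C : ℝ, 0 < C ∧ ∀ c m n K : ℕ, 1 ≤ m → 3 * K ≤ c →
    ∑ t ∈ range (K + 1), DfC c m n t ≤ C * K / m + C * n ^ 3 + m := by
  obtain ⟨C, hC, hdev⟩ := dev_sumC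
  refine ⟨2 * C, by positivity, fun c m n K hm hc => ?_⟩
  unfold DfC
  rw [sum_add_distrib]
  have hm0 : (0 : ℝ) < m := by exact_mod_cast hm
  have h1 : ∑ t ∈ range (K + 1), ∑ j ∈ Ico m (t + 1),
      dev (FWT c j t) wwt (fun w => (Wo w : ℤ)) (j + n) m ≤ 2 * C * K / m + 2 * C * n ^ 3 := by
    calc ∑ t ∈ range (K + 1), ∑ j ∈ Ico m (t + 1), dev (FWT c j t) wwt (fun w => (Wo w : ℤ)) (j + n) m
        ≤ ∑ t ∈ range (K + 1), ∑ j ∈ Ico m (K + 1),
            dev (FWT c j t) wwt (fun w => (Wo w : ℤ)) (j + n) m := by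
          apply sum_le_sum
          intro t ht
          rw [mem_range] at ht
          apply sum_le_sum_of_subset_of_nonneg
          · intro j hj
            rw [mem_Ico] at hj ⊢; omega
          · intro j _ _; exact dev_nonneg _ _ _ _ _
      _ = ∑ j ∈ Ico m (K + 1), ∑ t ∈ range (K + 1),
            dev (FWT c j t) wwt (fun w => (Wo w : ℤ)) (j + n) m := sum_comm
      _ ≤ ∑ j ∈ Ico m (K + 1), (2 * C / m + C * n ^ 3 * (1 / (j : ℝ)) ^ 2) := by
          apply sum_le_sum
          intro j hj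
          rw [mem_Ico] at hj
          refine le_trans ?_ ((hdev c j m n hm hj.1 (by omega)).trans (le_of_eq ?_))
          · apply sum_le_sum_of_subset_of_nonneg
            · intro t ht
              rw [mem_range] at ht ⊢
              have : 1 * c ≤ j * c := Nat.mul_le_mul_right c (by omega)
              omega
            · intro t _ _; exact dev_nonneg _ _ _ _ _
          · ring
      _ = ((K + 1 - m : ℕ) : ℝ) * (2 * C / m) + C * n ^ 3 * ∑ j ∈ Ico m (K + 1), (1 / (j : ℝ)) ^ 2 := by
          rw [sum_add_distrib, sum_const, Nat.card_Ico, nsmul_eq_mul, mul_sum]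
      _ ≤ K * (2 * C / m) + C * n ^ 3 * 2 := by
          apply add_le_add
          · apply mul_le_mul_of_nonneg_right _ (by positivity)
            have : K + 1 - m ≤ K := by omega
            exact_mod_cast this
          · apply mul_le_mul_of_nonneg_left _ (by positivity)
            rcases Nat.lt_or_ge K m with h | h
            · rw [Ico_eq_empty (by omega)]
              simp
            · refine (inv_sq_sum' hm (by omega)).trans ?_
              have : (1 : ℝ) ≤ m := by exact_mod_cast hm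
              rw [div_le_iff₀ hm0]
              linarith
      _ = _ := by ring
  have h2 : ∑ t ∈ range (K + 1), ∑ j ∈ range m, ∑ w ∈ FWT c j t, wwt w ≤ m := by
    rw [sum_comm]
    calc ∑ j ∈ range m, ∑ t ∈ range (K + 1), ∑ w ∈ FWT c j t, wwt w
        ≤ ∑ _j ∈ range m, (1 : ℝ) := by
          apply sum_le_sum
          intro j _
          refine le_trans ?_ (sum_wwt_le c j)
          calc ∑ t ∈ range (K + 1), ∑ w ∈ FWT c j t, wwt w
              = ∑ t ∈ range (K + 1), ∑ w ∈ FW c j, (if w.sum = t then wwt w else 0) := by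
                apply sum_congr rfl
                intro t _
                unfold FWT
                rw [sum_filter]
            _ = ∑ w ∈ FW c j, ∑ t ∈ range (K + 1), (if w.sum = t then wwt w else 0) := sum_comm
            _ ≤ _ := by
                apply sum_le_sum
                intro w _
                rw [sum_ite_eq]
                split_ifs
                · exact le_rfl
                · exact (Pool.Agent.R344.SP.wwt_pos w).le
      _ = m := by simp
  linarith

/-- THE DEFECTS ARE SMALL ON AVERAGE -/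
theorem DgC_sum : ∃ C : ℝ, 0 < C ∧ ∀ c m n K : ℕ, 1 ≤ m → 3 * K ≤ c →
    ∑ t ∈ range (K + 1), DgC c m n t ≤ C * K / m + C * n ^ 3 + 2 * m + 2 := by
  obtain ⟨C, hC, hDf⟩ := DfC_sum
  refine ⟨2 * C, by positivity, fun c m n K hm hc => ?_⟩
  have h1 := hDf c m n K hm hc
  have key : ∀ K : ℕ, ∑ t ∈ range (K + 1), DgC c m n t ≤ 2 * (1 + ∑ t ∈ range (K + 1), DfC c m n t) := by
    intro K
    have h2 : ∑ t ∈ range (K + 1), DgC c m n t
        = 1 + ∑ t ∈ range K, (DfC c m n (t + 1) + DgC c m n t / 2) := by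
      rw [sum_range_succ']
      simp only [DgC]
      ring
    have h3 : ∑ t ∈ range K, DgC c m n t ≤ ∑ t ∈ range (K + 1), DgC c m n t := by
      rw [sum_range_succ]; linarith [DgC_nonneg c m n K]
    have h4 : ∑ t ∈ range K, DfC c m n (t + 1) ≤ ∑ t ∈ range (K + 1), DfC c m n t := by
      rw [sum_range_succ' (fun t => DfC c m n t)]; linarith [DfC_nonneg c m n 0]
    rw [sum_add_distrib, ← sum_div] at h2
    linarith
  have h5 := key K
  have : 2 * (1 + (C * K / m + C * n ^ 3 + m)) = 2 * C * K / m + 2 * C * n ^ 3 + 2 * m + 2 := by ring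
  linarith

/-! ### the cap plays no role -/

theorem DfC_cap {c c' m n t : ℕ} (hc : t ≤ c) (hc' : t ≤ c') : DfC c m n t = DfC c' m n t := by
  unfold DfC
  congr 1
  · apply sum_congr rfl
    intro j _
    rw [FWT_cap hc hc']
  · apply sum_congr rfl
    intro j _
    rw [FWT_cap hc hc']

theorem DgC_cap {c c' m n : ℕ} : ∀ {t : ℕ}, t ≤ c → t ≤ c' → DgC c m n t = DgC c' m n t
  | 0, _, _ => rfl
  | t + 1, hc, hc' => by
    have h := DgC_cap (c := c) (c' := c') (m := m) (n := n) (t := t) (by omega) (by omega)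
    rw [DgC, DgC, DfC_cap hc hc', h]

/-- the defect -/
noncomputable def DhC (m n t : ℕ) : ℝ := DgC t m n t

theorem DhC_nonneg (m n t : ℕ) : 0 ≤ DhC m n t := DgC_nonneg _ _ _ _

theorem DhC_sum : ∃ C : ℝ, 0 < C ∧ ∀ m n K : ℕ, 1 ≤ m →
    ∑ t ∈ range (K + 1), DhC m n t ≤ C * K / m + C * n ^ 3 + 2 * m + 2 := by
  obtain ⟨C, hC, h⟩ := DgC_sum
  refine ⟨C, hC, fun m n K hm => ?_⟩
  refine le_trans (le_of_eq ?_) (h (3 * K) m n K hm le_rfl)
  apply sum_congr rfl
  intro t ht
  rw [mem_range] at ht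
  exact DgC_cap le_rfl (by omega)

/-- the defect is small at most times -/
theorem rareC {η θ : ℝ} (hη : 0 < η) (hθ : 0 < θ) : ∃ m : ℕ, 1 ≤ m ∧ ∀ n : ℕ,
    Rare θ {t | η < DhC m n t} := by
  classical
  obtain ⟨C, hC, hs⟩ := DhC_sum
  obtain ⟨m, hm⟩ := exists_nat_ge (2 * C / (η * θ) + 1)
  have hm1 : 1 ≤ m := by
    have : (1 : ℝ) ≤ m := by
      have : 0 ≤ 2 * C / (η * θ) := by positivity
      linarith
    exact_mod_cast this
  have hm0 : (0 : ℝ) < m := by exact_mod_cast hm1
  refine ⟨m, hm1, fun n => ?_⟩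
  obtain ⟨K₁, hK₁⟩ := exists_nat_ge (2 * (C * n ^ 3 + 2 * m + 2) / (η * θ))
  refine ⟨K₁, fun K hK => ⟨(range (K + 1)).filter (fun t => η < DhC m n t), ?_, ?_⟩⟩
  · intro t ht htK
    rw [mem_filter, mem_range]
    exact ⟨by omega, ht⟩
  · have h1 : η * (((range (K + 1)).filter (fun t => η < DhC m n t)).card : ℝ)
        ≤ C * K / m + C * n ^ 3 + 2 * m + 2 := by
      calc η * (((range (K + 1)).filter (fun t => η < DhC m n t)).card : ℝ)
          = ∑ _t ∈ (range (K + 1)).filter (fun t => η < DhC m n t), η := by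
            rw [sum_const, nsmul_eq_mul]; ring
        _ ≤ ∑ t ∈ (range (K + 1)).filter (fun t => η < DhC m n t), DhC m n t := by
            apply sum_le_sum
            intro t ht
            exact (mem_filter.1 ht).2.le
        _ ≤ ∑ t ∈ range (K + 1), DhC m n t :=
            sum_le_sum_of_subset_of_nonneg (filter_subset _ _) fun t _ _ => DhC_nonneg m n t
        _ ≤ _ := hs m n K hm1
    have hKR : (K₁ : ℝ) ≤ K := by exact_mod_cast hK
    have h2 : 2 * (C * n ^ 3 + 2 * m + 2) ≤ K * (η * θ) := by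
      have h3 := hK₁.trans hKR
      rw [div_le_iff₀ (by positivity)] at h3
      exact h3
    have h4 : C / m ≤ η * θ / 2 := by
      rw [div_le_iff₀ hm0]
      have h5 : 2 * C / (η * θ) ≤ m := by linarith
      rw [div_le_iff₀ (by positivity)] at h5
      nlinarith
    have h6 : C * K / m ≤ η * θ / 2 * K := by
      rw [show C * (K : ℝ) / m = C / m * K by ring]
      exact mul_le_mul_of_nonneg_right h4 (by positivity)
    have h7 : η * (((range (K + 1)).filter (fun t => η < DhC m n t)).card : ℝ) ≤ η * (θ * K) := by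
      nlinarith
    exact le_of_mul_le_mul_left h7 hη

/-- every large time is the sum of two good times -/
theorem two_good {U : Set ℕ} (h : Rare (1 / 8) U) : ∃ t₁ : ℕ, ∀ t : ℕ, t₁ ≤ t →
    ∃ s s' : ℕ, s + s' = t ∧ t ≤ 8 * s ∧ t ≤ 8 * s' ∧ s ∉ U ∧ s' ∉ U := by
  classical
  obtain ⟨K₁, h⟩ := h
  refine ⟨max K₁ 8, fun t ht => ?_⟩
  have ht1 : K₁ ≤ t := le_trans (le_max_left _ _) ht
  have ht2 : 8 ≤ t := le_trans (le_max_right _ _) ht
  obtain ⟨S, hS, hc⟩ := h t ht1
  by_contra hcon
  push Not at hcon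
  set a := (t + 7) / 8 with ha
  have hsub : Finset.Icc a (t - a) ⊆ S ∪ S.image (fun s => t - s) := by
    intro s hs
    rw [mem_Icc] at hs
    rw [mem_union, mem_image]
    by_cases hsU : s ∈ U
    · exact Or.inl (hS s hsU (by omega))
    · right
      have h1 := hcon s (t - s) (by omega) (by omega) (by omega) hsU
      exact ⟨t - s, hS _ h1 (by omega), by omega⟩
  have h1 : ((Finset.Icc a (t - a)).card : ℝ) ≤ 2 * S.card := by
    have h2 : (Finset.Icc a (t - a)).card ≤ S.card + S.card :=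
      (card_le_card hsub).trans ((card_union_le _ _).trans (Nat.add_le_add_left card_image_le _))
    have h3 : ((Finset.Icc a (t - a)).card : ℝ) ≤ (S.card + S.card : ℕ) := by exact_mod_cast h2
    push_cast at h3
    linarith
  rw [Nat.card_Icc] at h1
  have h2 : 4 * (t - a + 1 - a) > t := by omega
  have h3 : (t : ℝ) < 4 * ((t - a + 1 - a : ℕ) : ℝ) := by exact_mod_cast h2
  linarith

end Pool.Agent.W5h47.SL
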