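import Pool.Agent.W5h47.SL.B

/-! Laws of single iterates, part C: functions with small sums in the classes mod `3^m` of all long
windows; their compositions with the iterates. -/

set_option autoImplicit false

namespace Pool.Agent.W5h47.SL

open Pool.Agent.H320R2.PD Finset
open Pool.Agent.H499R2.CO (Tz)
open Pool.Agent.R344.SP

/-- small sums in the classes mod `3^m` of the windows `[L,2L)`, `L ≥ Y` -/
def Pm (m : ℕ) (δ Y : ℝ) (f : ℤ → ℝ) : Prop :=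
  ∀ L, Y ≤ L → ∀ b : ℤ, |∑ x ∈ cl L (2 * L) m 1 b, f x| ≤ δ * L / 3 ^ m

theorem Pm.mono {m : ℕ} {δ Y δ' Y' : ℝ} {f : ℤ → ℝ} (h : Pm m δ Y f) (hδ : δ ≤ δ') (hY : Y ≤ Y')
    (hY0 : 0 ≤ Y') : Pm m δ' Y' f := by
  intro L hL b
  refine (h L (hY.trans hL) b).trans ?_
  apply div_le_div_of_nonneg_right _ (by positivity)
  exact mul_le_mul_of_nonneg_right hδ (hY0.trans hL)

/-- a class mod `3^n` is the union of three classes mod `3^(n+1)` -/
theorem cl_three (f : ℤ → ℝ) (a b' : ℝ) (n : ℕ) (b : ℤ) :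
    ∑ x ∈ cl a b' n 1 b, f x = ∑ x ∈ cl a b' (n + 1) 1 b, f x + ∑ x ∈ cl a b' (n + 1) 1 (b + 3 ^ n), f x
      + ∑ x ∈ cl a b' (n + 1) 1 (b + 2 * 3 ^ n), f x := by
  classical
  unfold cl
  rw [sum_filter, sum_filter, sum_filter, sum_filter, ← sum_add_distrib, ← sum_add_distrib]
  apply sum_congr rfl
  intro x _
  have h3 : (0 : ℤ) < 3 ^ n := by positivity
  by_cases hd : (3 : ℤ) ^ n ∣ 1 * x - b
  · obtain ⟨t, ht⟩ := hd
    have e0 : (3 : ℤ) ^ (n + 1) ∣ 1 * x - b ↔ (3 : ℤ) ∣ t := by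
      rw [ht, pow_succ]; exact mul_dvd_mul_iff_left h3.ne'
    have e1 : (3 : ℤ) ^ (n + 1) ∣ 1 * x - (b + 3 ^ n) ↔ (3 : ℤ) ∣ t - 1 := by
      rw [show 1 * x - (b + 3 ^ n) = 3 ^ n * (t - 1) by rw [mul_sub, ← ht]; ring, pow_succ]
      exact mul_dvd_mul_iff_left h3.ne'
    have e2 : (3 : ℤ) ^ (n + 1) ∣ 1 * x - (b + 2 * 3 ^ n) ↔ (3 : ℤ) ∣ t - 2 := by
      rw [show 1 * x - (b + 2 * 3 ^ n) = 3 ^ n * (t - 2) by rw [mul_sub, ← ht]; ring, pow_succ]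
      exact mul_dvd_mul_iff_left h3.ne'
    rw [if_pos (Dvd.intro _ ht.symm)]
    simp only [e0, e1, e2]
    rcases (by omega : t % 3 = 0 ∨ t % 3 = 1 ∨ t % 3 = 2) with h | h | h
    · rw [if_pos (by omega), if_neg (by omega), if_neg (by omega)]; ring
    · rw [if_neg (by omega), if_pos (by omega), if_neg (by omega)]; ring
    · rw [if_neg (by omega), if_neg (by omega), if_pos (by omega)]; ring
  · have hJ : (3 : ℤ) ^ n ∣ 3 ^ (n + 1) := pow_dvd_pow 3 (Nat.le_succ n)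
    have hn0 : ¬ (3 : ℤ) ^ (n + 1) ∣ 1 * x - b := fun h => hd (hJ.trans h)
    have hn1 : ¬ (3 : ℤ) ^ (n + 1) ∣ 1 * x - (b + 3 ^ n) := fun h => hd (by
      have := dvd_add (hJ.trans h) (dvd_refl ((3 : ℤ) ^ n))
      rwa [show 1 * x - (b + 3 ^ n) + 3 ^ n = 1 * x - b by ring] at this)
    have hn2 : ¬ (3 : ℤ) ^ (n + 1) ∣ 1 * x - (b + 2 * 3 ^ n) := fun h => hd (by
      have := dvd_add (hJ.trans h) (Dvd.intro_left (2 : ℤ) (rfl : 2 * (3 : ℤ) ^ n = 2 * 3 ^ n))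
      rwa [show 1 * x - (b + 2 * 3 ^ n) + 2 * 3 ^ n = 1 * x - b by ring] at this)
    rw [if_neg hd, if_neg hn0, if_neg hn1, if_neg hn2]; ring

theorem Pm.down1 {n : ℕ} {δ Y : ℝ} {f : ℤ → ℝ} (h : Pm (n + 1) δ Y f) : Pm n δ Y f := by
  intro L hL b
  rw [cl_three]
  have h1 := h L hL b
  have h2 := h L hL (b + 3 ^ n)
  have h3 := h L hL (b + 2 * 3 ^ n)
  have e : δ * L / 3 ^ n = δ * L / 3 ^ (n + 1) + δ * L / 3 ^ (n + 1) + δ * L / 3 ^ (n + 1) := by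
    rw [pow_succ]; field_simp; norm_num
  rw [e]
  exact (abs_add_le _ _).trans (add_le_add ((abs_add_le _ _).trans (add_le_add h1 h2)) h3)

theorem Pm.down {n : ℕ} {δ Y : ℝ} {f : ℤ → ℝ} : ∀ (k : ℕ), Pm (n + k) δ Y f → Pm n δ Y f
  | 0, h => h
  | k + 1, h => Pm.down k h.down1

theorem Pm.window {m : ℕ} {δ Y : ℝ} {f : ℤ → ℝ} (h : Pm m δ Y f) {L : ℝ} (hL : Y ≤ L) :
    |∑ x ∈ Wn L, f x| ≤ δ * L := by
  have h1 : Pm 0 δ Y f := Pm.down (n := 0) m (by rwa [zero_add])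
  have h2 := h1 L hL 0
  have h3 : Wn L = cl L (2 * L) 0 1 0 := by
    ext x
    rw [mem_Wn, mem_cl]; simp
  rw [h3]
  simpa using h2

/-- one good time -/
theorem good_step {d : ℤ} (hd : d % 2 = 1) (hd3 : IsCoprime d 3) {β : ℝ}
    (hβ : Real.log 2 - Real.log 3 / 2 < β) (m : ℕ) {η : ℝ} (hη : 0 < η) :
    ∃ s₀ : ℕ, ∀ s : ℕ, s₀ ≤ s → DhC m m s ≤ η / 8 → ∀ Ψ : ℤ → ℝ, (∀ x, |Ψ x| ≤ 1) →
      ∀ δ Y : ℝ, 0 ≤ δ → 0 ≤ Y → Pm m δ Y Ψ →
      Pm m (2 * δ + η) (max (4 ^ s) (Y * Real.exp (β * s))) (fun x => Ψ ((Tz d)^[s] x)) := by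
  classical
  have hl3 : 0 < Real.log 3 := Real.log_pos (by norm_num)
  set c₀ : ℝ := (Real.log 2 - β) / Real.log 3 with hc₀
  have hc₀lt : c₀ < 1 / 2 := by
    rw [hc₀, div_lt_iff₀ hl3]; linarith
  obtain ⟨ρ, hρ0, hρ1, hρ⟩ := od_small hd hc₀lt
  have h3m : (0 : ℝ) < 3 ^ m := by positivity
  obtain ⟨s₁, hs₁⟩ : ∃ s₁ : ℕ, ∀ s ≥ s₁, ρ ^ s ≤ η / (8 * 3 ^ m) := by
    have h := tendsto_pow_atTop_nhds_zero_of_lt_one hρ0.le hρ1
    have h1 := h.eventually (gt_mem_nhds (show (0 : ℝ) < η / (8 * 3 ^ m) by positivity))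
    obtain ⟨s₁, hs₁⟩ := Filter.eventually_atTop.1 h1
    exact ⟨s₁, fun s hs => (hs₁ s hs).le⟩
  obtain ⟨s₂, hs₂⟩ : ∃ s₂ : ℕ, ∀ s ≥ s₂, (2 * |(d : ℝ)| + 3) * 2 * (4 / η) * 3 ^ m + 3 ^ m ≤ 2 ^ s := by
    have h := tendsto_pow_atTop_atTop_of_one_lt (show (1 : ℝ) < 2 by norm_num)
    have h1 := h.eventually_ge_atTop ((2 * |(d : ℝ)| + 3) * 2 * (4 / η) * 3 ^ m + 3 ^ m)
    obtain ⟨s₂, hs₂⟩ := Filter.eventually_atTop.1 h1
    exact ⟨s₂, fun s hs => hs₂ s hs⟩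
  refine ⟨max s₁ s₂, fun s hs hDh Ψ hΨ δ Y hδ hY hP => ?_⟩
  intro A hA b
  have hρs := hs₁ s (le_trans (le_max_left _ _) hs)
  have h2s := hs₂ s (le_trans (le_max_right _ _) hs)
  have h4A : (4 : ℝ) ^ s ≤ A := (le_max_left _ _).trans hA
  have hYA : Y * Real.exp (β * s) ≤ A := (le_max_right _ _).trans hA
  have hA0 : 0 < A := lt_of_lt_of_le (by positivity) h4A
  have h2p : (0 : ℝ) < 2 ^ s := by positivity
  have h22 : (4 : ℝ) ^ s = 2 ^ s * 2 ^ s := by rw [← mul_pow]; norm_num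
  set j₀ : ℕ := ⌈c₀ * s⌉₊ with hj₀
  have hmain := all_mainC (c := s) hd hd3 m m j₀ hΨ hδ s le_rfl hA0.le isCoprime_one_left b (by
    intro j hj b'
    have hj1 : c₀ * s ≤ j := (Nat.le_ceil _).trans (by exact_mod_cast hj)
    apply hP
    have hexp : (3 : ℝ) ^ j / 2 ^ s = Real.exp (j * Real.log 3 - s * Real.log 2) := by
      rw [Real.exp_sub, Real.exp_nat_mul, Real.exp_nat_mul, Real.exp_log (by norm_num),
        Real.exp_log (by norm_num)]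
    have h1 : -(β * s) ≤ j * Real.log 3 - s * Real.log 2 := by
      have h2 : c₀ * s * Real.log 3 ≤ j * Real.log 3 := mul_le_mul_of_nonneg_right hj1 hl3.le
      have h3 : c₀ * s * Real.log 3 = (Real.log 2 - β) * s := by
        rw [hc₀]; field_simp
      rw [h3] at h2
      linarith
    have h4 : Real.exp (-(β * s)) ≤ 3 ^ j / 2 ^ s := by
      rw [hexp]; exact Real.exp_le_exp.2 h1
    calc Y = Y * Real.exp (β * s) * Real.exp (-(β * s)) := by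
          rw [mul_assoc, ← Real.exp_add, add_neg_cancel, Real.exp_zero, mul_one]
      _ ≤ A * (3 ^ j / 2 ^ s) := mul_le_mul hYA h4 (Real.exp_pos _).le hA0.le
      _ = _ := by ring)
  have hsplit := sum_filter_add_sum_filter_not (cl A (2 * A) m 1 b) (fun n => j₀ ≤ od d s n)
    (fun n => Ψ ((Tz d)^[s] n))
  have hrest : |∑ n ∈ (cl A (2 * A) m 1 b).filter (fun n => ¬ j₀ ≤ od d s n), Ψ ((Tz d)^[s] n)|
      ≤ (A + 2 ^ s) * ρ ^ s := by
    refine (abs_sum_le_sum_abs _ _).trans ?_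
    calc ∑ n ∈ (cl A (2 * A) m 1 b).filter (fun n => ¬ j₀ ≤ od d s n), |Ψ ((Tz d)^[s] n)|
        ≤ ∑ _n ∈ (cl A (2 * A) m 1 b).filter (fun n => ¬ j₀ ≤ od d s n), (1 : ℝ) :=
          sum_le_sum fun n _ => hΨ _
      _ = (((cl A (2 * A) m 1 b).filter (fun n => ¬ j₀ ≤ od d s n)).card : ℝ) := by simp
      _ ≤ (((Wn A).filter (fun n => (od d s n : ℝ) < c₀ * s)).card : ℝ) := by
          have : (cl A (2 * A) m 1 b).filter (fun n => ¬ j₀ ≤ od d s n)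
              ⊆ (Wn A).filter (fun n => (od d s n : ℝ) < c₀ * s) := by
            intro n hn
            rw [mem_filter, mem_cl] at hn
            rw [mem_filter, mem_Wn]
            refine ⟨hn.1.1, ?_⟩
            by_contra h
            exact hn.2 (Nat.ceil_le.2 (not_lt.1 h))
          exact_mod_cast card_le_card this
      _ ≤ _ := hρ s A hA0.le
  have hD0 := DhC_nonneg m m s
  -- sizes
  have hx0 : 0 < A / 3 ^ m := by positivity
  have h2A : 2 ^ s ≤ A / 3 ^ m := by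
    rw [le_div_iff₀ h3m]
    have h5 : (3 : ℝ) ^ m ≤ 2 ^ s := by
      have : 0 ≤ (2 * |(d : ℝ)| + 3) * 2 * (4 / η) * 3 ^ m := by positivity
      linarith
    calc (2 : ℝ) ^ s * 3 ^ m ≤ 2 ^ s * 2 ^ s := mul_le_mul_of_nonneg_left h5 h2p.le
      _ ≤ A := by rw [← h22]; exact h4A
  have e1 : (A / 3 ^ m + 2 ^ s) * DgC s m m s ≤ η / 4 * (A / 3 ^ m) := by
    change (A / 3 ^ m + 2 ^ s) * DhC m m s ≤ _
    calc (A / 3 ^ m + 2 ^ s) * DhC m m s ≤ (2 * (A / 3 ^ m)) * (η / 8) := by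
          apply mul_le_mul _ hDh hD0 (by positivity)
          linarith
      _ = _ := by ring
  have e2 : (2 * |(d : ℝ)| + 3) * 2 ^ (s + 1) ≤ η / 4 * (A / 3 ^ m) := by
    have h5 : (2 * |(d : ℝ)| + 3) * 2 * (4 / η) * 3 ^ m ≤ 2 ^ s := by linarith
    have h6 : (2 * |(d : ℝ)| + 3) * 2 * (4 / η) * 3 ^ m * 2 ^ s ≤ A := by
      calc _ ≤ (2 : ℝ) ^ s * 2 ^ s := mul_le_mul_of_nonneg_right h5 h2p.le
        _ ≤ A := by rw [← h22]; exact h4A
    have h7 : (2 * |(d : ℝ)| + 3) * 2 ^ (s + 1)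
        = η / 4 * (((2 * |(d : ℝ)| + 3) * 2 * (4 / η) * 3 ^ m * 2 ^ s) / 3 ^ m) := by
      rw [pow_succ]; field_simp
    rw [h7]
    apply mul_le_mul_of_nonneg_left _ (by positivity)
    exact div_le_div_of_nonneg_right h6 h3m.le
  have e3 : (A + 2 ^ s) * ρ ^ s ≤ η / 4 * (A / 3 ^ m) := by
    have h5 : (2 : ℝ) ^ s ≤ A := by
      refine h2A.trans (div_le_self hA0.le (one_le_pow₀ (by norm_num)))
    calc (A + 2 ^ s) * ρ ^ s ≤ (2 * A) * (η / (8 * 3 ^ m)) := by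
          apply mul_le_mul _ hρs (by positivity) (by positivity)
          linarith
      _ = _ := by field_simp; norm_num
  have e4 : 2 * δ * A / 3 ^ m = 2 * δ * (A / 3 ^ m) := by ring
  have e5 : (2 * δ + η) * A / 3 ^ m = 2 * δ * (A / 3 ^ m) + η * (A / 3 ^ m) := by ring
  rw [e4] at hmain
  rw [e5, ← hsplit]
  refine (abs_add_le _ _).trans ?_
  have hηx : 0 < η * (A / 3 ^ m) := by positivity
  calc |∑ n ∈ (cl A (2 * A) m 1 b).filter (fun n => j₀ ≤ od d s n), Ψ ((Tz d)^[s] n)|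
        + |∑ n ∈ (cl A (2 * A) m 1 b).filter (fun n => ¬ j₀ ≤ od d s n), Ψ ((Tz d)^[s] n)|
      ≤ (2 * δ * (A / 3 ^ m) + η / 4 * (A / 3 ^ m) + η / 4 * (A / 3 ^ m)) + η / 4 * (A / 3 ^ m) := by
        apply add_le_add _ (hrest.trans e3)
        exact hmain.trans (add_le_add (add_le_add le_rfl e1) e2)
    _ ≤ _ := by linarith

/-- EVERY LARGE TIME -/
theorem any_step {d : ℤ} (hd : d % 2 = 1) (hd3 : IsCoprime d 3) {β : ℝ}
    (hβ : Real.log 2 - Real.log 3 / 2 < β) (hβ4 : β ≤ Real.log 4) {η : ℝ} (hη : 0 < η) :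
    ∃ m t₁ : ℕ, ∀ t : ℕ, t₁ ≤ t → ∀ Ψ : ℤ → ℝ, (∀ x, |Ψ x| ≤ 1) →
      ∀ δ Y : ℝ, 0 ≤ δ → 0 ≤ Y → Pm m δ Y Ψ →
      Pm m (4 * δ + 3 * η) (max (4 ^ t) (Y * Real.exp (β * t))) (fun x => Ψ ((Tz d)^[t] x)) := by
  obtain ⟨m, _, hm⟩ := rareC (η := η / 8) (θ := 1 / 8) (by positivity) (by norm_num)
  obtain ⟨t₁, ht₁⟩ := two_good (hm m)
  obtain ⟨s₀, hs₀⟩ := good_step hd hd3 hβ m hη
  have hβ0 : 0 ≤ β := by
    have : Real.log 3 ≤ 2 * Real.log 2 := by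
      have h := Real.log_le_log (by norm_num) (by norm_num : (3 : ℝ) ≤ 2 ^ 2)
      rw [Real.log_pow] at h
      push_cast at h
      exact h
    linarith
  refine ⟨m, max t₁ (8 * s₀), fun t ht Ψ hΨ δ Y hδ hY hP => ?_⟩
  obtain ⟨s, s', hss, h8, h8', hsU, hsU'⟩ := ht₁ t (le_trans (le_max_left _ _) ht)
  have hts : 8 * s₀ ≤ t := le_trans (le_max_right _ _) ht
  have hg : DhC m m s ≤ η / 8 := not_lt.1 hsU
  have hg' : DhC m m s' ≤ η / 8 := not_lt.1 hsU'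
  have h1 := hs₀ s (by omega) hg Ψ hΨ δ Y hδ hY hP
  have hY1 : 0 ≤ max ((4 : ℝ) ^ s) (Y * Real.exp (β * s)) := le_trans (by positivity) (le_max_left _ _)
  have h2 := hs₀ s' (by omega) hg' (fun x => Ψ ((Tz d)^[s] x)) (fun x => hΨ _) (2 * δ + η) _
    (by positivity) hY1 h1
  have e1 : (fun x => Ψ ((Tz d)^[s] ((Tz d)^[s'] x))) = fun x => Ψ ((Tz d)^[t] x) := by
    funext x
    rw [← Function.iterate_add_apply, hss]
  rw [e1] at h2
  refine h2.mono (by linarith) ?_ (le_trans (by positivity) (le_max_left _ _))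
  have h4t : (4 : ℝ) ^ t = 4 ^ s * 4 ^ s' := by rw [← pow_add, hss]
  have hs4 : (1 : ℝ) ≤ 4 ^ s := one_le_pow₀ (by norm_num)
  have hs4' : (1 : ℝ) ≤ 4 ^ s' := one_le_pow₀ (by norm_num)
  have hexp' : Real.exp (β * s') ≤ 4 ^ s' := by
    calc Real.exp (β * s') ≤ Real.exp (s' * Real.log 4) := by
          apply Real.exp_le_exp.2
          rw [mul_comm]
          exact mul_le_mul_of_nonneg_left hβ4 (by positivity)
      _ = 4 ^ s' := by rw [Real.exp_nat_mul, Real.exp_log (by norm_num)]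
  apply max_le
  · refine le_trans ?_ (le_max_left _ _)
    rw [h4t]
    exact le_mul_of_one_le_left (by positivity) hs4
  · rw [max_mul_of_nonneg _ _ (Real.exp_pos _).le]
    apply max_le
    · refine le_trans ?_ (le_max_left _ _)
      rw [h4t]
      exact mul_le_mul_of_nonneg_left hexp' (by positivity)
    · refine le_trans (le_of_eq ?_) (le_max_right _ _)
      rw [mul_assoc, ← Real.exp_add, ← mul_add]
      congr 3
      rw [← hss]; push_cast; ring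

/-- many steps -/
theorem chain {d : ℤ} {β : ℝ} {η : ℝ} (hη : 0 < η) {m t₁ : ℕ}
    (hst : ∀ t : ℕ, t₁ ≤ t → ∀ Ψ : ℤ → ℝ, (∀ x, |Ψ x| ≤ 1) →
      ∀ δ Y : ℝ, 0 ≤ δ → 0 ≤ Y → Pm m δ Y Ψ →
      Pm m (4 * δ + 3 * η) (max (4 ^ t) (Y * Real.exp (β * t))) (fun x => Ψ ((Tz d)^[t] x)))
    (hβ0 : 0 ≤ β) {T : ℕ} (hT : t₁ ≤ T) {Ψ : ℤ → ℝ} (hΨ : ∀ x, |Ψ x| ≤ 1) {δ Y : ℝ} (hδ : 0 ≤ δ)
    (hY : 4 ^ (T + 1) ≤ Y) (hP : Pm m δ Y Ψ) : ∀ (r k : ℕ), r * T ≤ k → k ≤ r * (T + 1) →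
    Pm m (4 ^ r * δ + (4 ^ r - 1) * η) (Y * Real.exp (β * k)) (fun x => Ψ ((Tz d)^[k] x)) := by
  have hY0 : 0 ≤ Y := le_trans (by positivity) hY
  intro r
  induction r with
  | zero =>
    intro k _ hk
    obtain rfl : k = 0 := by omega
    simpa using hP
  | succ r ih =>
    intro k hk1 hk2
    obtain ⟨t, ht1, ht2, htk, h1, h2⟩ : ∃ t, T ≤ t ∧ t ≤ T + 1 ∧ t ≤ k ∧ r * T ≤ k - t ∧
        k - t ≤ r * (T + 1) := by
      have e1 : (r + 1) * T = r * T + T := by ring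
      have e2 : (r + 1) * (T + 1) = r * (T + 1) + (T + 1) := by ring
      rcases Nat.lt_or_ge k (r * T + T + 1) with h | h
      · refine ⟨T, le_rfl, by omega, by omega, by omega, ?_⟩
        have : r * T ≤ r * (T + 1) := Nat.mul_le_mul_left _ (by omega)
        omega
      · exact ⟨T + 1, by omega, le_rfl, by omega, by omega, by omega⟩
    have hih := ih (k - t) h1 h2
    have hc0 : (0 : ℝ) ≤ (4 ^ r - 1) * η := by
      have : (1 : ℝ) ≤ 4 ^ r := one_le_pow₀ (by norm_num)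
      apply mul_nonneg _ hη.le
      linarith
    have h3 := hst t (hT.trans ht1) _ (fun x => hΨ _) _ _ (by positivity) (by positivity) hih
    have e1 : (fun x => Ψ ((Tz d)^[k - t] ((Tz d)^[t] x))) = fun x => Ψ ((Tz d)^[k] x) := by
      funext x
      rw [← Function.iterate_add_apply, Nat.sub_add_cancel htk]
    rw [e1] at h3
    refine h3.mono (le_of_eq (by ring)) ?_ (by positivity)
    have e2 : Y * Real.exp (β * (k - t : ℕ)) * Real.exp (β * t) = Y * Real.exp (β * k) := by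
      rw [mul_assoc, ← Real.exp_add, ← mul_add, Nat.cast_sub htk]
      congr 3
      ring
    rw [e2]
    apply max_le _ le_rfl
    calc (4 : ℝ) ^ t ≤ 4 ^ (T + 1) := pow_le_pow_right₀ (by norm_num) ht2
      _ ≤ Y := hY
      _ ≤ Y * Real.exp (β * k) := le_mul_of_one_le_right hY0 (Real.one_le_exp (by positivity))

end Pool.Agent.W5h47.SL
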