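import Pool.Agent.W5h47.SL.C

/-! Laws of single iterates, part D: small times; the main theorem. -/

set_option autoImplicit false

namespace Pool.Agent.W5h47.SL

open Pool.Agent.H320R2.PD Finset
open Pool.Agent.H499R2.CO (Tz)
open Pool.Agent.R344.SP

theorem one_mem_FWT : [1] ∈ FWT 1 1 1 := by
  unfold FWT
  rw [mem_filter, mem_FW]
  simp

theorem Tz_even {d : ℤ} {x : ℤ} (h : x % 2 = 0) : Tz d x = x / 2 := by
  unfold Tz; rw [if_pos h]

/-- one step -/
theorem small_step {d : ℤ} (hd : d % 2 = 1) (n : ℕ) {δ Y η : ℝ} (hδ : 0 ≤ δ) (hη : 0 < η) :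
    ∃ Y' : ℝ, 0 ≤ Y' ∧ ∀ Ψ : ℤ → ℝ, (∀ x, |Ψ x| ≤ 1) → Pm (n + 1) δ Y Ψ →
      Pm n (δ + η) Y' (fun x => Ψ (Tz d x)) := by
  have h3n : (0 : ℝ) < 3 ^ n := by positivity
  refine ⟨max (2 * |Y|) (2 * (|(d : ℝ)| + 1) * 3 ^ n / η), le_trans (by positivity) (le_max_left _ _),
    fun Ψ hΨ hP => ?_⟩
  intro A hA b
  have hA1 : 2 * |Y| ≤ A := (le_max_left _ _).trans hA
  have hA2 : 2 * (|(d : ℝ)| + 1) * 3 ^ n / η ≤ A := (le_max_right _ _).trans hA
  have hA0 : 0 ≤ A := le_trans (by positivity) hA1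
  have hYle := le_abs_self Y
  have hsplit : ∑ x ∈ cl A (2 * A) n 1 b, Ψ (Tz d x)
      = ∑ M ∈ (Oc A n 1 b).filter (fun M => (2 : ℤ) ^ 1 ∣ 3 ^ 1 * M + d * Wo [1]),
          Ψ ((3 ^ 1 * M + d * Wo [1]) / 2 ^ 1)
        + ∑ y ∈ cl (A / 2) (2 * (A / 2)) n 2 b, Ψ y := by
    rw [← sum_filter_add_sum_filter_not (cl A (2 * A) n 1 b) (fun n => n % 2 = 1)]
    have hW : Wo [1] = 1 := rfl
    congr 1
    · apply sum_congr
      · ext M
        rw [mem_filter, mem_filter, mem_Oc, mem_cl, hW]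
        constructor
        · rintro ⟨⟨h1, h2⟩, h3⟩
          refine ⟨⟨⟨h1, h3⟩, h2⟩, ?_⟩
          push_cast
          omega
        · rintro ⟨⟨⟨h1, h3⟩, h2⟩, _⟩
          exact ⟨⟨h1, h2⟩, h3⟩
      · intro M hM
        rw [mem_filter, mem_Oc] at hM
        have h3 := hM.1.1.2
        congr 1
        unfold Tz
        rw [if_neg (by omega), hW]
        push_cast
        norm_num
    · apply sum_nbij' (fun n => n / 2) (fun n => 2 * n)
      · intro x hx
        rw [mem_filter, mem_cl] at hx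
        obtain ⟨⟨⟨h1, h2⟩, h5⟩, h4⟩ := hx
        obtain ⟨y, rfl⟩ : ∃ y, x = 2 * y := ⟨x / 2, by omega⟩
        rw [Int.mul_ediv_cancel_left _ (by norm_num), mem_cl]
        push_cast at h1 h2
        rw [one_mul] at h5
        exact ⟨⟨by linarith, by linarith⟩, h5⟩
      · intro y hy
        rw [mem_cl] at hy
        obtain ⟨⟨h1, h2⟩, h5⟩ := hy
        rw [mem_filter, mem_cl]
        push_cast
        rw [one_mul]
        exact ⟨⟨⟨by linarith, by linarith⟩, h5⟩, by omega⟩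
      · intro x hx
        rw [mem_filter] at hx
        have := hx.2
        omega
      · intro y _
        exact Int.mul_ediv_cancel_left _ (by norm_num)
      · intro x hx
        rw [mem_filter] at hx
        rw [Tz_even (by omega)]
  have hword := one_wordC (A := A) hd 1 1 1 n le_rfl hΨ one_mem_FWT isCoprime_one_left b
  have hcop2 : IsCoprime (2 : ℤ) 3 := ⟨-1, 1, by norm_num⟩
  obtain ⟨b1, hb1⟩ := cl_one (n + 1) (cop_mul isCoprime_one_left 1) (1 * (d * Wo [1]) + 3 ^ 1 * b)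
  obtain ⟨b2, hb2⟩ := cl_one n hcop2 b
  rw [add_comm 1 n, hb1] at hword
  have h1 := hP (A * 3 ^ 1 / 2 ^ 1) (by norm_num; linarith) b1
  have h2 := (hP.down1) (A / 2) (by linarith) b2
  rw [hsplit, hb2]
  have e1 : δ * (A * 3 ^ 1 / 2 ^ 1) / 3 ^ (n + 1) = δ * (A / 2) / 3 ^ n := by
    rw [pow_succ 3 n]; field_simp
  rw [e1] at h1
  have e2 : (δ + η) * A / 3 ^ n = δ * (A / 2) / 3 ^ n + δ * (A / 2) / 3 ^ n + η * A / 3 ^ n := by ring
  have e3 : 2 * (|(d : ℝ)| + 1) ≤ η * A / 3 ^ n := by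
    rw [div_le_iff₀ hη] at hA2
    rw [le_div_iff₀ h3n]
    linarith
  rw [e2]
  have a1 := abs_le.1 hword
  have a2 := abs_le.1 h1
  have a3 := abs_le.1 h2
  rw [abs_le]
  constructor <;> linarith [a1.1, a1.2, a2.1, a2.2, a3.1, a3.2]

/-- small times -/
theorem small {d : ℤ} (hd : d % 2 = 1) : ∀ (k n : ℕ) {δ Y η : ℝ}, 0 ≤ δ → 0 < η →
    ∃ Y' : ℝ, 0 ≤ Y' ∧ ∀ Ψ : ℤ → ℝ, (∀ x, |Ψ x| ≤ 1) → Pm (n + k) δ Y Ψ →
      Pm n (δ + η) Y' (fun x => Ψ ((Tz d)^[k] x)) := by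
  intro k
  induction k with
  | zero =>
    intro n δ Y η hδ hη
    refine ⟨|Y|, abs_nonneg _, fun Ψ _ hP => ?_⟩
    exact Pm.mono (by simpa using hP) (by linarith) (le_abs_self Y) (abs_nonneg _)
  | succ k ih =>
    intro n δ Y η hδ hη
    obtain ⟨Y₁, hY₁, h1⟩ := ih (n + 1) (Y := Y) (η := η / 2) hδ (by positivity)
    obtain ⟨Y₂, hY₂, h2⟩ := small_step hd n (δ := δ + η / 2) (Y := Y₁) (η := η / 2) (by positivity)
      (by positivity)
    refine ⟨Y₂, hY₂, fun Ψ hΨ hP => ?_⟩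
    have h3 := h2 (fun x => Ψ ((Tz d)^[k] x)) (fun x => hΨ _)
      (h1 Ψ hΨ (by rwa [show n + 1 + k = n + (k + 1) by ring]))
    have e1 : (fun x => Ψ ((Tz d)^[k] (Tz d x))) = fun x => Ψ ((Tz d)^[k + 1] x) := by
      funext x
      rw [Function.iterate_succ_apply]
    rw [e1] at h3
    exact h3.mono (by linarith) le_rfl hY₂

/-- the sum over `1 ≤ n < X`, from windows -/
theorem from_win (f : ℤ → ℝ) (hf : ∀ x, |f x| ≤ 1) {D : ℝ} (hD : 0 ≤ D) : ∀ (I : ℕ) (X : ℝ), 2 ^ I ≤ X →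
    (∀ i < I, |∑ x ∈ Wn (X / 2 ^ (i + 1)), f x| ≤ D * (X / 2 ^ (i + 1))) →
    |∑ x ∈ Ico 1 ⌈X⌉, f x| ≤ D * X + X / 2 ^ I := by
  intro I
  induction I with
  | zero =>
    intro X hX _
    have hX1 : (1 : ℝ) ≤ X := by simpa using hX
    have h1 : |∑ x ∈ Ico 1 ⌈X⌉, f x| ≤ X := by
      refine (abs_sum_le_card hf _).trans ?_
      rw [Int.card_Ico]
      have h2 : (0 : ℤ) ≤ ⌈X⌉ - 1 := by
        have : (1 : ℤ) ≤ ⌈X⌉ := Int.one_le_ceil_iff.2 (by linarith)
        omega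
      have h3 : (((⌈X⌉ - 1).toNat : ℤ) : ℝ) = ((⌈X⌉ - 1 : ℤ) : ℝ) := by rw [Int.toNat_of_nonneg h2]
      have h4 : (((⌈X⌉ - 1).toNat : ℕ) : ℝ) = ((⌈X⌉ - 1 : ℤ) : ℝ) := by exact_mod_cast h3
      rw [h4]
      push_cast
      linarith [Int.ceil_lt_add_one X]
    have h2 : 0 ≤ D * X := by positivity
    simpa using h1.trans (by linarith)
  | succ I ih =>
    intro X hX h
    have hX0 : 0 < X := lt_of_lt_of_le (by positivity) hX
    have h2I : (2 : ℝ) ^ I ≤ X / 2 := by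
      rw [le_div_iff₀ (by norm_num), ← pow_succ]; exact hX
    have h3 := ih (X / 2) h2I (by
      intro i hi
      have h4 := h (i + 1) (by omega)
      have e : X / 2 ^ (i + 1 + 1) = X / 2 / 2 ^ (i + 1) := by rw [pow_succ 2 (i + 1)]; field_simp
      rwa [e] at h4)
    have h4 := h 0 (by omega)
    rw [zero_add, pow_one] at h4
    have h5 : ⌈X / 2⌉ ≤ ⌈X⌉ := Int.ceil_le_ceil (by linarith)
    have h6 : (1 : ℤ) ≤ ⌈X / 2⌉ := by
      have : (1 : ℝ) ≤ X / 2 := le_trans (one_le_pow₀ (by norm_num)) h2I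
      exact Int.one_le_ceil_iff.2 (by linarith)
    have hun : Ico 1 ⌈X⌉ = Ico 1 ⌈X / 2⌉ ∪ Wn (X / 2) := by
      unfold Wn
      rw [show 2 * (X / 2) = X by ring, Finset.Ico_union_Ico_eq_Ico h6 h5]
    have hdis : Disjoint (Ico 1 ⌈X / 2⌉) (Wn (X / 2)) := by
      rw [Finset.disjoint_left]
      intro x hx hx'
      unfold Wn at hx'
      rw [mem_Ico] at hx hx'
      omega
    rw [hun, sum_union hdis]
    refine (abs_add_le _ _).trans ((add_le_add h3 h4).trans (le_of_eq ?_))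
    rw [pow_succ 2 I]
    field_simp
    ring

/-- THE MAIN THEOREM: every time -/
theorem core1 {d : ℤ} (hd : d % 2 = 1) (hd3 : IsCoprime d 3) {κ : ℝ} (hκ0 : 0 < κ)
    (hκ : κ * (Real.log 2 - Real.log 3 / 2) < 1) {ε : ℝ} (hε : 0 < ε) :
    ∃ m : ℕ, ∃ δ : ℝ, 0 < δ ∧ ∀ Y₀ : ℝ, ∃ N₀ : ℕ, ∀ N ≥ N₀, ∀ k : ℕ, (k : ℝ) ≤ κ * Real.log N →
      ∀ Ψ : ℤ → ℝ, (∀ x, |Ψ x| ≤ 1) → Pm m δ Y₀ Ψ →
        |∑ n ∈ Ico 1 ((N : ℤ) + 1), Ψ ((Tz d)^[k] n)| ≤ ε * N := by
  have hl2 : 0 < Real.log 2 := Real.log_pos (by norm_num)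
  have hl3 : 0 < Real.log 3 := Real.log_pos (by norm_num)
  have hl4 : 0 < Real.log 4 := Real.log_pos (by norm_num)
  have hl42 : Real.log 4 = 2 * Real.log 2 := by
    rw [show (4 : ℝ) = 2 ^ 2 by norm_num, Real.log_pow]; push_cast; ring
  have hb0 : 0 < Real.log 2 - Real.log 3 / 2 := by
    have : Real.log 3 < 2 * Real.log 2 := by
      have h := Real.log_lt_log (by norm_num) (by norm_num : (3 : ℝ) < 2 ^ 2)
      rw [Real.log_pow] at h
      push_cast at h
      exact h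
    linarith
  obtain ⟨β, hβ, hκβ, hβ4⟩ : ∃ β : ℝ, Real.log 2 - Real.log 3 / 2 < β ∧ κ * β < 1 ∧
      β ≤ Real.log 4 := by
    refine ⟨min (((Real.log 2 - Real.log 3 / 2) + 1 / κ) / 2) (Real.log 4), ?_, ?_, min_le_right _ _⟩
    · apply lt_min
      · have : Real.log 2 - Real.log 3 / 2 < 1 / κ := by rw [lt_div_iff₀ hκ0]; linarith
        linarith
      · linarith
    · have h1 : κ * min (((Real.log 2 - Real.log 3 / 2) + 1 / κ) / 2) (Real.log 4)
          ≤ κ * (((Real.log 2 - Real.log 3 / 2) + 1 / κ) / 2) :=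
        mul_le_mul_of_nonneg_left (min_le_left _ _) hκ0.le
      have : κ * (((Real.log 2 - Real.log 3 / 2) + 1 / κ) / 2)
          = (κ * (Real.log 2 - Real.log 3 / 2) + 1) / 2 := by field_simp
      rw [this] at h1; linarith
  have hβ0 : 0 < β := hb0.trans hβ
  have h1κβ : 0 < 1 - κ * β := by linarith
  -- the number of blocks
  obtain ⟨r, hr⟩ := exists_nat_ge (2 * (κ * Real.log 4) / (1 - κ * β) + 1)
  have p1 : 0 ≤ 2 * (κ * Real.log 4) / (1 - κ * β) := by positivity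
  have hr1 : (1 : ℝ) ≤ r := by linarith
  have hr1' : 1 ≤ r := by exact_mod_cast hr1
  have hr0 : (0 : ℝ) < r := by linarith
  have hrκ : κ * Real.log 4 / r ≤ (1 - κ * β) / 2 := by
    have h1 : 2 * (κ * Real.log 4) / (1 - κ * β) ≤ r := by linarith
    rw [div_le_iff₀ h1κβ] at h1
    rw [div_le_iff₀ hr0]
    linarith
  set η : ℝ := ε / (8 * 4 ^ r) with hηdef
  have hη0 : 0 < η := by positivity
  obtain ⟨m₁, t₁, hst⟩ := any_step hd hd3 hβ hβ4 hη0
  set K := r * t₁ with hK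
  -- remainder
  obtain ⟨I, hI⟩ : ∃ I : ℕ, (1 : ℝ) / 2 ^ I ≤ ε / 8 := by
    obtain ⟨I, hI⟩ := exists_pow_lt_of_lt_one (show (0 : ℝ) < ε / 8 by positivity)
      (show (1 / 2 : ℝ) < 1 by norm_num)
    refine ⟨I, ?_⟩
    rw [div_pow, one_pow] at hI
    exact hI.le
  refine ⟨m₁ + K, η, hη0, fun Y₀ => ?_⟩
  -- small times
  have hsm : ∀ k : ℕ, ∃ Y' : ℝ, 0 ≤ Y' ∧ ∀ Ψ : ℤ → ℝ, (∀ x, |Ψ x| ≤ 1) → Pm (0 + k) η Y₀ Ψ →
      Pm 0 (η + η) Y' (fun x => Ψ ((Tz d)^[k] x)) := fun k => small hd k 0 hη0.le hη0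
  choose Ys hYs0 hYs using hsm
  set YK : ℝ := ∑ k ∈ range (K + 1), Ys k with hYK
  have hYKle : ∀ k ≤ K, Ys k ≤ YK := fun k hk =>
    single_le_sum (f := Ys) (fun i _ => hYs0 i) (mem_range.2 (by omega))
  have hYK0 : 0 ≤ YK := sum_nonneg fun i _ => hYs0 i
  -- `N` large
  have h2I : (0 : ℝ) < 2 ^ I := by positivity
  set γ : ℝ := (1 - κ * β) / 2 with hγ
  have hγ0 : 0 < γ := by rw [hγ]; positivity
  obtain ⟨N₀, hN₀⟩ : ∃ N₀ : ℕ, ∀ N : ℕ, N₀ ≤ N →
      1 ≤ N ∧ (2 * YK + 2) * 2 ^ I ≤ N ∧ (|Y₀| + 4) * 2 ^ I ≤ (N : ℝ) ^ γ := by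
    have ht : Filter.Tendsto (fun N : ℕ => (N : ℝ) ^ γ) Filter.atTop Filter.atTop :=
      (tendsto_rpow_atTop hγ0).comp tendsto_natCast_atTop_atTop
    have h1 := ht.eventually_ge_atTop ((|Y₀| + 4) * 2 ^ I)
    have h2 : Filter.Tendsto (fun N : ℕ => (N : ℝ)) Filter.atTop Filter.atTop :=
      tendsto_natCast_atTop_atTop
    have h3 := h2.eventually_ge_atTop ((2 * YK + 2) * 2 ^ I)
    have h4 := Filter.eventually_ge_atTop 1
    obtain ⟨N₀, hN₀⟩ := Filter.eventually_atTop.1 ((h4.and h3).and h1)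
    exact ⟨N₀, fun N hN => ⟨(hN₀ N hN).1.1, (hN₀ N hN).1.2, (hN₀ N hN).2⟩⟩
  refine ⟨N₀, fun N hN k hk Ψ hΨ hP => ?_⟩
  obtain ⟨hN1, hN2, hN3⟩ := hN₀ N hN
  have hNR : (1 : ℝ) ≤ N := by exact_mod_cast hN1
  have hN0 : (0 : ℝ) < N := by linarith
  set X : ℝ := (N : ℝ) + 1 with hX
  have hceil : ⌈X⌉ = (N : ℤ) + 1 := by
    rw [hX]
    have : ((N : ℝ) + 1) = (((N : ℤ) + 1 : ℤ) : ℝ) := by push_cast; rfl
    rw [this, Int.ceil_intCast]
  have hX2I : (2 : ℝ) ^ I ≤ X := by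
    have : (2 : ℝ) ^ I ≤ (2 * YK + 2) * 2 ^ I := by
      have h1 : (1 : ℝ) ≤ 2 * YK + 2 := by linarith
      nlinarith
    linarith
  -- all windows
  have hwin : ∀ i < I, |∑ x ∈ Wn (X / 2 ^ (i + 1)), Ψ ((Tz d)^[k] x)| ≤ ε / 4 * (X / 2 ^ (i + 1)) := by
    intro i hi
    set A : ℝ := X / 2 ^ (i + 1) with hA
    have hAN : (N : ℝ) / 2 ^ I ≤ A := by
      rw [hA]
      have h1 : (2 : ℝ) ^ (i + 1) ≤ 2 ^ I := pow_le_pow_right₀ (by norm_num) (by omega)
      rw [div_le_div_iff₀ h2I (by positivity)]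
      have h2 : (N : ℝ) * 2 ^ (i + 1) ≤ N * 2 ^ I := mul_le_mul_of_nonneg_left h1 hN0.le
      have h3 : (N : ℝ) * 2 ^ I ≤ X * 2 ^ I := mul_le_mul_of_nonneg_right (by rw [hX]; linarith) h2I.le
      linarith
    have hA0 : 0 < A := lt_of_lt_of_le (by positivity) hAN
    rcases Nat.lt_or_ge k K with hkK | hkK
    · have h1 : Pm (0 + k) η Y₀ Ψ := by
        rw [zero_add]
        refine Pm.down (m₁ + K - k) ?_
        rwa [show k + (m₁ + K - k) = m₁ + K by omega]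
      have h2 := hYs k Ψ hΨ h1
      have h3 : Ys k ≤ A := by
        refine (hYKle k hkK.le).trans (le_trans ?_ hAN)
        rw [le_div_iff₀ h2I]
        nlinarith
      refine (h2.window h3).trans ?_
      apply mul_le_mul_of_nonneg_right _ hA0.le
      have h4 : η ≤ ε / 8 := by
        rw [hηdef]
        apply div_le_div_of_nonneg_left hε.le (by norm_num)
        have : (1 : ℝ) ≤ 4 ^ r := one_le_pow₀ (by norm_num)
        linarith
      linarith
    · set T := k / r with hT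
      have hTt : t₁ ≤ T := by
        rw [hT, Nat.le_div_iff_mul_le (by omega), mul_comm]; exact hkK
      have hTk : r * T ≤ k := Nat.mul_div_le k r
      have hTk2 : k ≤ r * (T + 1) := (Nat.lt_mul_div_succ k (by omega)).le
      set Y : ℝ := max |Y₀| (4 ^ (T + 1)) with hY
      have hY0 : 0 ≤ Y := le_trans (abs_nonneg _) (le_max_left _ _)
      have h1 : Pm m₁ η Y Ψ :=
        (Pm.down K hP).mono le_rfl ((le_abs_self _).trans (le_max_left _ _)) hY0
      have h2 := chain hη0 hst hβ0.le hTt hΨ hη0.le (le_max_right _ _) h1 r k hTk hTk2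
      have h3 : Y * Real.exp (β * k) ≤ A := by
        refine le_trans ?_ hAN
        rw [le_div_iff₀ h2I]
        have hlogN : 0 ≤ Real.log N := Real.log_nonneg hNR
        have e1 : Y ≤ (|Y₀| + 4) * Real.exp (Real.log 4 / r * k) := by
          apply max_le
          · have : (1 : ℝ) ≤ Real.exp (Real.log 4 / r * k) := Real.one_le_exp (by positivity)
            have h5 := abs_nonneg Y₀
            nlinarith
          · have h5 : (4 : ℝ) ^ T ≤ Real.exp (Real.log 4 / r * k) := by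
              have h6 : (4 : ℝ) ^ T = Real.exp (T * Real.log 4) := by
                rw [Real.exp_nat_mul, Real.exp_log (by norm_num)]
              rw [h6]
              apply Real.exp_le_exp.2
              have h7 : (T : ℝ) ≤ k / r := by
                rw [le_div_iff₀ hr0, mul_comm]; exact_mod_cast hTk
              calc (T : ℝ) * Real.log 4 ≤ k / r * Real.log 4 := mul_le_mul_of_nonneg_right h7 hl4.le
                _ = _ := by ring
            rw [pow_succ]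
            have h8 := abs_nonneg Y₀
            have h9 : 0 < Real.exp (Real.log 4 / r * k) := Real.exp_pos _
            nlinarith
        have e2 : Real.exp (Real.log 4 / r * k) * Real.exp (β * k) ≤ (N : ℝ) ^ (1 - γ) := by
          rw [← Real.exp_add, Real.rpow_def_of_pos hN0]
          apply Real.exp_le_exp.2
          have h5 : Real.log 4 / r * k + β * k = (Real.log 4 / r + β) * k := by ring
          rw [h5]
          calc (Real.log 4 / r + β) * k ≤ (Real.log 4 / r + β) * (κ * Real.log N) :=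
                mul_le_mul_of_nonneg_left hk (by positivity)
            _ = (κ * Real.log 4 / r + κ * β) * Real.log N := by ring
            _ ≤ (1 - γ) * Real.log N := by
                apply mul_le_mul_of_nonneg_right _ hlogN
                rw [hγ]; linarith
            _ = _ := by ring
        calc Y * Real.exp (β * k) * 2 ^ I
            ≤ (|Y₀| + 4) * Real.exp (Real.log 4 / r * k) * Real.exp (β * k) * 2 ^ I := by
              apply mul_le_mul_of_nonneg_right _ h2I.le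
              exact mul_le_mul_of_nonneg_right e1 (Real.exp_pos _).le
          _ = ((|Y₀| + 4) * 2 ^ I) * (Real.exp (Real.log 4 / r * k) * Real.exp (β * k)) := by ring
          _ ≤ (N : ℝ) ^ γ * (N : ℝ) ^ (1 - γ) := by
              apply mul_le_mul hN3 e2 (by positivity) (by positivity)
          _ = N := by
              rw [← Real.rpow_add hN0]
              rw [show γ + (1 - γ) = 1 by ring, Real.rpow_one]
      refine (h2.window h3).trans ?_
      apply mul_le_mul_of_nonneg_right _ hA0.le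
      have h4 : 4 ^ r * η = ε / 8 := by
        rw [hηdef]; field_simp
      have h5 : (4 ^ r - 1) * η ≤ ε / 8 := by
        rw [← h4]
        nlinarith
      linarith
  have hfin := from_win (fun x => Ψ ((Tz d)^[k] x)) (fun x => hΨ _) (by positivity : 0 ≤ ε / 4) I X
    hX2I hwin
  rw [hceil] at hfin
  refine hfin.trans ?_
  have h1 : X ≤ 2 * N := by rw [hX]; linarith
  have h2 : X / 2 ^ I ≤ ε / 8 * (2 * N) := by
    calc X / 2 ^ I = 1 / 2 ^ I * X := by ring
      _ ≤ ε / 8 * (2 * N) := mul_le_mul hI h1 (by rw [hX]; positivity) (by positivity)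
  have h3 : ε / 4 * X ≤ ε / 4 * (2 * N) := mul_le_mul_of_nonneg_left h1 (by positivity)
  have h4 : 0 < ε * N := by positivity
  linarith

end Pool.Agent.W5h47.SL
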