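import Pool.Agent.W5h47.SL.D
import Pool.Agent.R344.SP.MB
import Pool.Agent.R105.CZ.Signs

/-! Laws of single iterates, part E: both signs, translations, sets of small density, residue classes. -/

set_option autoImplicit false

namespace Pool.Agent.W5h47.SL

open Pool.Agent.H320R2.PD Finset
open Pool.Agent.H499R2.CO (Tz)
open Pool.Agent.R344.SP

/-- the sum of `f` over the `k`-th iterates of `s, 2 s, ..., N s` -/
noncomputable def St (d s : ℤ) (N k : ℕ) (f : ℤ → ℝ) : ℝ :=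
  ∑ n ∈ Icc 1 N, f ((Tz d)^[k] (s * (n : ℕ)))

theorem sum_Icc_Ico (f : ℤ → ℝ) (N : ℕ) : ∑ n ∈ Icc 1 N, f ((n : ℕ) : ℤ) = ∑ n ∈ Ico 1 ((N : ℤ) + 1), f n := by
  apply sum_nbij' (fun n : ℕ => (n : ℤ)) (fun n : ℤ => n.toNat)
  · intro n hn
    rw [mem_Icc] at hn
    rw [mem_Ico]; omega
  · intro n hn
    rw [mem_Ico] at hn
    rw [mem_Icc]; omega
  · intro n _; exact Int.toNat_natCast n
  · intro n hn
    rw [mem_Ico] at hn
    exact Int.toNat_of_nonneg (by omega)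
  · intro n _; rfl

theorem sgn_sq {s : ℤ} (hs : s = 1 ∨ s = -1) (x : ℤ) : s * (s * x) = x := by
  rcases hs with rfl | rfl <;> ring

theorem iter_sgn {d s : ℤ} (hd : d % 2 = 1) (hs : s = 1 ∨ s = -1) (k : ℕ) (x : ℤ) :
    (Tz d)^[k] (s * x) = s * (Tz (s * d))^[k] x := by
  rcases hs with rfl | rfl
  · rw [one_mul, one_mul, one_mul]
  · rw [neg_one_mul, neg_one_mul, neg_one_mul, Pool.Agent.R105.CZ.iter_neg hd]

theorem St_le (d s : ℤ) (N k : ℕ) {f : ℤ → ℝ} {c : ℝ} (hf : ∀ x, |f x| ≤ c) : |St d s N k f| ≤ c * N := by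
  unfold St
  refine (abs_sum_le_sum_abs _ _).trans ?_
  calc ∑ n ∈ Icc 1 N, |f ((Tz d)^[k] (s * (n : ℕ)))| ≤ ∑ _n ∈ Icc 1 N, c := sum_le_sum fun n _ => hf _
    _ = c * N := by rw [sum_const, Nat.card_Icc, Nat.add_sub_cancel, nsmul_eq_mul]; ring

theorem St_mono (d s : ℤ) (N k : ℕ) {f g : ℤ → ℝ} (h : ∀ x, f x ≤ g x) : St d s N k f ≤ St d s N k g :=
  sum_le_sum fun _ _ => h _

theorem St_add (d s : ℤ) (N k : ℕ) (f g : ℤ → ℝ) :
    St d s N k (fun x => f x + g x) = St d s N k f + St d s N k g := sum_add_distrib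

theorem St_sub (d s : ℤ) (N k : ℕ) (f g : ℤ → ℝ) :
    St d s N k (fun x => f x - g x) = St d s N k f - St d s N k g := sum_sub_distrib ..

theorem St_const (d s : ℤ) (N k : ℕ) (c : ℝ) : St d s N k (fun _ => c) = c * N := by
  unfold St
  rw [sum_const, Nat.card_Icc, Nat.add_sub_cancel, nsmul_eq_mul]; ring

theorem St_div (d s : ℤ) (N k : ℕ) (f : ℤ → ℝ) (c : ℝ) :
    St d s N k (fun x => f x / c) = St d s N k f / c := by
  unfold St; rw [sum_div]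

theorem St_shift (d s : ℤ) (N k j : ℕ) (f : ℤ → ℝ) :
    St d s N k (fun x => f ((Tz d)^[j] x)) = St d s N (j + k) f := by
  unfold St
  apply sum_congr rfl
  intro n _
  dsimp only
  rw [← Function.iterate_add_apply]

/-- the main theorem, both signs -/
theorem core2 {d : ℤ} (hd : d % 2 = 1) (hd3 : IsCoprime d 3) {κ : ℝ}
    (hκ : κ < 2 / Real.log (4 / 3)) {ε : ℝ} (hε : 0 < ε) :
    ∃ m : ℕ, ∃ δ : ℝ, 0 < δ ∧ ∀ Y₀ : ℝ, ∃ N₀ : ℕ, ∀ N ≥ N₀, ∀ k : ℕ, (k : ℝ) ≤ κ * Real.log N →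
      ∀ s : ℤ, (s = 1 ∨ s = -1) → ∀ Ψ : ℤ → ℝ, (∀ x, |Ψ x| ≤ 1) → Pm m δ Y₀ (fun x => Ψ (s * x)) →
        |St d s N k Ψ| ≤ ε * N := by
  obtain ⟨κ', hκ0, hκκ, hκ1⟩ := kappa_bridge hκ
  have key : ∀ s : ℤ, (s = 1 ∨ s = -1) → (s * d) % 2 = 1 ∧ IsCoprime (s * d) 3 := by
    intro s hs
    rcases hs with rfl | rfl
    · rw [one_mul]; exact ⟨hd, hd3⟩
    · rw [neg_one_mul]; exact ⟨by omega, hd3.neg_left⟩
  obtain ⟨m₁, δ₁, hδ₁, h1⟩ := core1 (key 1 (Or.inl rfl)).1 (key 1 (Or.inl rfl)).2 hκ0 hκ1 hε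
  obtain ⟨m₂, δ₂, hδ₂, h2⟩ := core1 (key (-1) (Or.inr rfl)).1 (key (-1) (Or.inr rfl)).2 hκ0 hκ1 hε
  refine ⟨m₁ + m₂, min δ₁ δ₂, lt_min hδ₁ hδ₂, fun Y₀ => ?_⟩
  obtain ⟨N₁, hN₁⟩ := h1 (max Y₀ 0)
  obtain ⟨N₂, hN₂⟩ := h2 (max Y₀ 0)
  refine ⟨max (max N₁ N₂) 1, fun N hN k hk s hs Ψ hΨ hP => ?_⟩
  have hNR : (1 : ℝ) ≤ N := by exact_mod_cast (le_trans (le_max_right _ _) hN)
  have hk' : (k : ℝ) ≤ κ' * Real.log N := hk.trans (mul_le_mul_of_nonneg_right hκκ (Real.log_nonneg hNR))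
  have e1 : St d s N k Ψ = ∑ n ∈ Ico 1 ((N : ℤ) + 1), (fun x => Ψ (s * x)) ((Tz (s * d))^[k] n) := by
    unfold St
    rw [← sum_Icc_Ico (fun n => (fun x => Ψ (s * x)) ((Tz (s * d))^[k] n))]
    apply sum_congr rfl
    intro n _
    dsimp only
    rw [iter_sgn hd hs]
  rw [e1]
  rcases hs with rfl | rfl
  · exact hN₁ N (le_trans (le_trans (le_max_left _ _) (le_max_left _ _)) hN) k hk' _ (fun x => hΨ _)
      ((Pm.down m₂ hP).mono (min_le_left _ _) (le_max_left _ _) (le_max_right _ _))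
  · exact hN₂ N (le_trans (le_trans (le_max_right _ _) (le_max_left _ _)) hN) k hk' _ (fun x => hΨ _)
      ((Pm.down m₁ (by rwa [add_comm m₂ m₁])).mono (min_le_right _ _) (le_max_left _ _) (le_max_right _ _))

/-- translations -/
theorem Pm_translate (m : ℕ) {δ : ℝ} (hδ : 0 < δ) {q : ℤ} (hq : (3 : ℤ) ^ m ∣ q) {g : ℤ → ℝ}
    (hg : ∀ x, |g x| ≤ 1) : Pm m δ (2 * (|(q : ℝ)| + 1) * 3 ^ m / δ) (fun x => (g x - g (x + q)) / 2) := by
  intro L hL b
  have h3m : (0 : ℝ) < 3 ^ m := by positivity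
  rw [← sum_div, sum_sub_distrib, cl_shift g L (2 * L) m b q hq]
  have h1 := shift_sum hg (a := L) (a' := L + q) (b := 2 * L) (b' := 2 * L + q) (K := |(q : ℝ)|)
    (by rw [sub_add_cancel_left, abs_neg]) (by rw [sub_add_cancel_left, abs_neg]) m isCoprime_one_left b
  rw [abs_div, abs_two, div_le_iff₀ (by norm_num)]
  refine h1.trans ?_
  have h2 : |(q : ℝ)| / 3 ^ m ≤ |(q : ℝ)| := div_le_self (abs_nonneg _) (one_le_pow₀ (by norm_num))
  rw [div_le_iff₀ hδ] at hL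
  have h3 : 2 * (|(q : ℝ)| + 1) ≤ δ * L / 3 ^ m := by
    rw [le_div_iff₀ h3m]; linarith
  have h4 : 0 ≤ |(q : ℝ)| := abs_nonneg _
  linarith

/-- functions with a period prime to three -/
theorem Pm_periodic (m : ℕ) {δ : ℝ} (hδ : 0 < δ) {H : ℕ} (hH : 1 ≤ H) (hc3 : Nat.Coprime 3 H) :
    ∃ Y₀ : ℝ, ∀ F : ℤ → ℝ, (∀ x, |F x| ≤ 1) → (∀ x z, F (x + H * z) = F x) →
      Pm m δ Y₀ (fun x => (F x - mn F H) / 2) := by
  have h3m : (0 : ℝ) < 3 ^ m := by positivity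
  have hH0 : (0 : ℝ) < H := by exact_mod_cast hH
  refine ⟨2 * (H + 1) * 3 ^ m / δ, fun F hF hper L hL b => ?_⟩
  have hmn : |mn F H| ≤ 1 := by
    unfold mn
    rw [abs_div, abs_of_pos hH0, div_le_one hH0]
    refine (abs_sum_le_sum_abs _ _).trans ?_
    calc ∑ i ∈ range H, |F i| ≤ ∑ _i ∈ range H, (1 : ℝ) := sum_le_sum fun i _ => hF _
      _ = H := by simp
  set Φ : ℤ → ℝ := fun x => (F x - mn F H) / 2 with hΦ
  have hΦ1 : ∀ x, |Φ x| ≤ 1 := by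
    intro x
    rw [hΦ]; dsimp only
    rw [abs_div, abs_two, div_le_one (by norm_num)]
    exact (abs_sub _ _).trans (by linarith [hF x])
  have hzero : ∀ x, ∑ i ∈ range H, Φ (x + 3 ^ m * i) = 0 := by
    intro x
    rw [hΦ]; dsimp only
    rw [← sum_div, sum_sub_distrib, cover_sum hH hper (cop3 hc3), sum_const, card_range, nsmul_eq_mul, mn]
    field_simp
    simp
  have hi : ∀ i : ℕ, i ∈ range H → |∑ x ∈ cl L (2 * L) m 1 b, Φ x - ∑ x ∈ cl L (2 * L) m 1 b, Φ (x + 3 ^ m * i)|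
      ≤ 2 * (H + 1) := by
    intro i hi
    rw [mem_range] at hi
    have hq : (3 : ℤ) ^ m ∣ 3 ^ m * i := dvd_mul_right _ _
    rw [cl_shift Φ L (2 * L) m b _ hq]
    have h1 := shift_sum hΦ1 (a := L) (a' := L + ((3 ^ m * i : ℤ) : ℝ)) (b := 2 * L)
      (b' := 2 * L + ((3 ^ m * i : ℤ) : ℝ)) (K := 3 ^ m * i)
      (by rw [sub_add_cancel_left, abs_neg]; push_cast; rw [abs_of_nonneg (by positivity)])
      (by rw [sub_add_cancel_left, abs_neg]; push_cast; rw [abs_of_nonneg (by positivity)]) m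
      isCoprime_one_left b
    refine h1.trans ?_
    rw [mul_div_cancel_left₀ _ h3m.ne']
    have : (i : ℝ) ≤ H := by exact_mod_cast hi.le
    linarith
  have hsum : (H : ℝ) * ∑ x ∈ cl L (2 * L) m 1 b, Φ x
      = ∑ i ∈ range H, (∑ x ∈ cl L (2 * L) m 1 b, Φ x - ∑ x ∈ cl L (2 * L) m 1 b, Φ (x + 3 ^ m * i)) := by
    rw [sum_sub_distrib, sum_const, card_range, nsmul_eq_mul, sum_comm (s := range H)]
    have : ∑ x ∈ cl L (2 * L) m 1 b, ∑ i ∈ range H, Φ (x + 3 ^ m * i) = 0 :=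
      sum_eq_zero fun x _ => hzero x
    rw [this, sub_zero]
  have h2 : |(H : ℝ) * ∑ x ∈ cl L (2 * L) m 1 b, Φ x| ≤ H * (2 * (H + 1)) := by
    rw [hsum]
    refine (abs_sum_le_sum_abs _ _).trans ((sum_le_sum hi).trans (le_of_eq ?_))
    rw [sum_const, card_range, nsmul_eq_mul]
  rw [abs_mul, abs_of_pos hH0] at h2
  have h3 := le_of_mul_le_mul_left h2 hH0
  refine h3.trans ?_
  rw [div_le_iff₀ hδ] at hL
  rw [le_div_iff₀ h3m]
  linarith

theorem mn_neg {F : ℤ → ℝ} {H : ℕ} (hH : 1 ≤ H) (hper : ∀ x z, F (x + H * z) = F x) {s : ℤ}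
    (hs : s = 1 ∨ s = -1) : mn (fun x => F (s * x)) H = mn F H := by
  unfold mn
  congr 1
  have hq : IsCoprime s (H : ℤ) := by
    rcases hs with rfl | rfl
    · exact isCoprime_one_left
    · exact isCoprime_one_left.neg_left
  have := cover_sum hH hper hq 0
  rw [← this]
  apply sum_congr rfl
  intro i _
  rw [zero_add]

/-- LAW FOR PERIODIC FUNCTIONS, period prime to three -/
theorem per_law {d : ℤ} (hd : d % 2 = 1) (hd3 : IsCoprime d 3) {κ : ℝ} (hκ : κ < 2 / Real.log (4 / 3))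
    {ε : ℝ} (hε : 0 < ε) {H : ℕ} (hH : 1 ≤ H) (hc3 : Nat.Coprime 3 H) : ∃ N₀ : ℕ, ∀ N ≥ N₀, ∀ k : ℕ,
    (k : ℝ) ≤ κ * Real.log N → ∀ s : ℤ, (s = 1 ∨ s = -1) → ∀ F : ℤ → ℝ, (∀ x, |F x| ≤ 1) →
      (∀ x z, F (x + H * z) = F x) → |St d s N k F - mn F H * N| ≤ ε * N := by
  obtain ⟨m, δ, hδ, h⟩ := core2 hd hd3 hκ (ε := ε / 2) (by positivity)
  obtain ⟨Y₀, hY₀⟩ := Pm_periodic m hδ hH hc3
  obtain ⟨N₀, hN₀⟩ := h Y₀
  refine ⟨N₀, fun N hN k hk s hs F hF hper => ?_⟩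
  have hH0 : (0 : ℝ) < H := by exact_mod_cast hH
  have hmn : |mn F H| ≤ 1 := by
    unfold mn
    rw [abs_div, abs_of_pos hH0, div_le_one hH0]
    refine (abs_sum_le_sum_abs _ _).trans ?_
    calc ∑ i ∈ range H, |F i| ≤ ∑ _i ∈ range H, (1 : ℝ) := sum_le_sum fun i _ => hF _
      _ = H := by simp
  have hper' : ∀ x z, F (s * (x + H * z)) = F (s * x) := by
    intro x z
    rw [show s * (x + H * z) = s * x + H * (s * z) by ring, hper]
  have h1 := hY₀ (fun x => F (s * x)) (fun x => hF _) hper'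
  rw [mn_neg hH hper hs] at h1
  have h2 := hN₀ N hN k hk s hs (fun x => (F x - mn F H) / 2) (fun x => by
    rw [abs_div, abs_two, div_le_one (by norm_num)]
    exact (abs_sub _ _).trans (by linarith [hF x])) h1
  have e1 : St d s N k (fun x => (F x - mn F H) / 2) = (St d s N k F - mn F H * N) / 2 := by
    rw [St_div d s N k (fun x => F x - mn F H) 2, St_sub d s N k F (fun _ => mn F H), St_const]
  rw [e1, abs_div, abs_two, div_le_iff₀ (by norm_num)] at h2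
  linarith

/-! ### residue classes -/

theorem Tshift_d {d : ℤ} (hd : d % 2 = 1) (x z : ℤ) : Tz d (x + 2 * z) = Tz d x + 3 ^ (x % 2).toNat * z := by
  unfold Tz
  rcases Int.emod_two_eq_zero_or_one x with h | h
  · rw [if_pos h, if_pos (by omega), h]
    simp only [Int.toNat_zero, pow_zero, one_mul]
    omega
  · rw [if_neg (by omega), if_neg (by omega), h]
    simp only [Int.toNat_one, pow_one]
    omega

theorem iter_shift_d {d : ℤ} (hd : d % 2 = 1) : ∀ (j : ℕ) (x z : ℤ),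
    (Tz d)^[j] (x + 2 ^ j * z) = (Tz d)^[j] x + 3 ^ od d j x * z
  | 0, x, z => by simp [od]
  | j + 1, x, z => by
    rw [Function.iterate_succ_apply, Function.iterate_succ_apply, od_succ']
    have h1 : x + 2 ^ (j + 1) * z = x + 2 * (2 ^ j * z) := by ring
    rw [h1, Tshift_d hd]
    have h2 : Tz d x + 3 ^ (x % 2).toNat * (2 ^ j * z) = Tz d x + 2 ^ j * (3 ^ (x % 2).toNat * z) := by ring
    rw [h2, iter_shift_d hd j, pow_add]
    ring

theorem od_shift_d {d : ℤ} (hd : d % 2 = 1) (j : ℕ) (x z : ℤ) : od d j (x + 2 ^ j * z) = od d j x := by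
  have := od_periodic hd j x z
  rwa [mul_comm z] at this

/-- the proportion of the residues modulo `2^j` with fewer than `a` odd terms among the first `j` -/
noncomputable def dlD (d : ℤ) (a j : ℕ) : ℝ := mn (fun y => if od d j y < a then 1 else 0) (2 ^ j)

/-- the function which controls `h (T^j y)` -/
noncomputable def FD (d : ℤ) (h : ℤ → ℝ) (a j : ℕ) (y : ℤ) : ℝ :=
  if a ≤ od d j y then h ((Tz d)^[j] y) else 0

theorem FD_per {d : ℤ} (hd : d % 2 = 1) {h : ℤ → ℝ} {a j M : ℕ}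
    (hh : ∀ x z, h (x + (3 ^ a * M : ℕ) * z) = h x) (x z : ℤ) :
    FD d h a j (x + (2 ^ j * M : ℕ) * z) = FD d h a j x := by
  unfold FD
  have h1 : x + (2 ^ j * M : ℕ) * z = x + 2 ^ j * (M * z) := by push_cast; ring
  rw [h1, od_shift_d hd, iter_shift_d hd]
  split_ifs with h2
  · obtain ⟨e, he⟩ := Nat.exists_eq_add_of_le h2
    rw [he, pow_add]
    have h3 : (Tz d)^[j] x + 3 ^ a * 3 ^ e * (M * z) = (Tz d)^[j] x + (3 ^ a * M : ℕ) * (3 ^ e * z) := by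
      push_cast; ring
    rw [h3, hh]
  · rfl

theorem dlD_nonneg (d : ℤ) (a j : ℕ) : 0 ≤ dlD d a j := by
  unfold dlD mn
  apply div_nonneg _ (by positivity)
  apply sum_nonneg
  intro i _
  dsimp only
  split_ifs <;> norm_num

theorem dlD_tendsto {d : ℤ} (hd : d % 2 = 1) (a : ℕ) : Filter.Tendsto (dlD d a) Filter.atTop (nhds 0) := by
  have hb : ∀ j, dlD d a j ≤ 2 ^ a * (3 / 4 : ℝ) ^ j := by
    intro j
    unfold dlD mn
    have h1 := od_gen hd (1 / 2) j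
    rw [div_le_iff₀ (by positivity)]
    calc ∑ i ∈ range (2 ^ j), (if od d j (i : ℤ) < a then (1 : ℝ) else 0)
        ≤ ∑ i ∈ range (2 ^ j), 2 ^ a * (1 / 2 : ℝ) ^ od d j (i : ℤ) := by
          apply sum_le_sum
          intro i _
          split_ifs with h
          · have h2 : (1 / 2 : ℝ) ^ a ≤ (1 / 2 : ℝ) ^ od d j (i : ℤ) :=
              pow_le_pow_of_le_one (by norm_num) (by norm_num) h.le
            calc (1 : ℝ) = 2 ^ a * (1 / 2 : ℝ) ^ a := by rw [← mul_pow]; norm_num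
              _ ≤ _ := mul_le_mul_of_nonneg_left h2 (by positivity)
          · positivity
      _ = 2 ^ a * (1 + 1 / 2) ^ j := by rw [← mul_sum, h1]
      _ = 2 ^ a * (3 / 4) ^ j * ((2 ^ j : ℕ) : ℝ) := by
          push_cast
          rw [mul_assoc, ← mul_pow]; norm_num
  have h0 : ∀ j, 0 ≤ dlD d a j := dlD_nonneg d a
  have ht : Filter.Tendsto (fun j : ℕ => (2 : ℝ) ^ a * (3 / 4 : ℝ) ^ j) Filter.atTop (nhds 0) := by
    have := (tendsto_pow_atTop_nhds_zero_of_lt_one (by norm_num : (0 : ℝ) ≤ 3 / 4) (by norm_num)).const_mul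
      ((2 : ℝ) ^ a)
    rwa [mul_zero] at this
  exact squeeze_zero h0 hb ht

theorem cop2' {j M : ℕ} (h : Nat.Coprime 3 M) : Nat.Coprime 3 (2 ^ j * M) :=
  Nat.Coprime.mul_right ((by norm_num : Nat.Coprime 3 2).pow_right j) h

/-- approximate law for periodic functions -/
theorem apx {d : ℤ} (hd : d % 2 = 1) (hd3 : IsCoprime d 3) {κ : ℝ} (hκ : κ < 2 / Real.log (4 / 3))
    {ε : ℝ} (hε : 0 < ε) {a M j : ℕ} (hM : 1 ≤ M) (hc3 : Nat.Coprime 3 M) (hj : dlD d a j ≤ ε) :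
    ∃ N₀ : ℕ, ∀ N ≥ N₀, ∀ k : ℕ, j ≤ k → (k : ℝ) ≤ κ * Real.log N → ∀ s : ℤ, (s = 1 ∨ s = -1) →
      ∀ h : ℤ → ℝ, (∀ x, |h x| ≤ 1) → (∀ x z, h (x + (3 ^ a * M : ℕ) * z) = h x) →
        |St d s N k h - mn (FD d h a j) (2 ^ j * M) * N| ≤ 3 * ε * N := by
  have h2j : 1 ≤ 2 ^ j := Nat.one_le_two_pow
  have hH : 1 ≤ 2 ^ j * M := Nat.mul_pos h2j hM
  obtain ⟨N₁, hN₁⟩ := per_law hd hd3 hκ hε hH (cop2' (j := j) hc3)
  obtain ⟨N₂, hN₂⟩ := per_law hd hd3 hκ hε h2j (by simpa using cop2' (j := j) (M := 1) (by norm_num))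
  refine ⟨max N₁ N₂, fun N hN k hjk hk s hs h hh1 hh => ?_⟩
  have hk' : ((k - j : ℕ) : ℝ) ≤ κ * Real.log N := by
    refine le_trans ?_ hk
    exact_mod_cast Nat.sub_le k j
  have hFD1 : ∀ x, |FD d h a j x| ≤ 1 := by
    intro x
    unfold FD
    split_ifs
    · exact hh1 _
    · simp
  have hA := hN₁ N (le_trans (le_max_left _ _) hN) (k - j) hk' s hs (FD d h a j) hFD1
    (fun x z => FD_per hd hh x z)
  have hB := hN₂ N (le_trans (le_max_right _ _) hN) (k - j) hk' s hs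
    (fun y => if od d j y < a then 1 else 0) (fun x => by split_ifs <;> simp)
    (fun x z => by push_cast; rw [od_shift_d hd])
  change |_ - dlD d a j * N| ≤ _ at hB
  have hdiff : |St d s N k h - St d s N (k - j) (FD d h a j)|
      ≤ St d s N (k - j) (fun y => if od d j y < a then 1 else 0) := by
    have e1 : St d s N k h = St d s N (k - j) (fun x => h ((Tz d)^[j] x)) := by
      rw [St_shift, Nat.add_sub_cancel' hjk]
    rw [e1, ← St_sub]
    unfold St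
    refine (abs_sum_le_sum_abs _ _).trans ?_
    apply sum_le_sum
    intro n _
    unfold FD
    dsimp only
    by_cases h1 : a ≤ od d j ((Tz d)^[k - j] (s * (n : ℕ)))
    · rw [if_pos h1, if_neg (by omega), sub_self, abs_zero]
    · rw [if_neg h1, if_pos (by omega), sub_zero]
      exact hh1 _
  have hN0 : (0 : ℝ) ≤ N := by positivity
  have hdl : dlD d a j * N ≤ ε * N := mul_le_mul_of_nonneg_right hj hN0
  have b1 := abs_le.1 hA
  have b2 := abs_le.1 hB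
  have b3 := abs_le.1 hdiff
  rw [abs_le]
  constructor <;> linarith [b1.1, b1.2, b2.1, b2.2, b3.1, b3.2]

theorem one_lt_crit' : (1 : ℝ) < 2 / Real.log (4 / 3) := by
  have h0 : 0 < Real.log (4 / 3) := Real.log_pos (by norm_num)
  rw [lt_div_iff₀ h0, one_mul]
  have := Real.log_lt_sub_one_of_pos (by norm_num : (0 : ℝ) < 4 / 3) (by norm_num)
  linarith

/-- THE STATIONARY LAW -/
theorem stat {d : ℤ} (hd : d % 2 = 1) (hd3 : IsCoprime d 3) {h : ℤ → ℝ} (hh1 : ∀ x, |h x| ≤ 1)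
    {a M : ℕ} (hM : 1 ≤ M) (hc3 : Nat.Coprime 3 M) (hh : ∀ x z, h (x + (3 ^ a * M : ℕ) * z) = h x) :
    ∃ c : ℝ, ∀ κ : ℝ, κ < 2 / Real.log (4 / 3) → ∀ ε : ℝ, 0 < ε → ∃ K₀ N₀ : ℕ, ∀ N ≥ N₀, ∀ k : ℕ,
      K₀ ≤ k → (k : ℝ) ≤ κ * Real.log N → ∀ s : ℤ, (s = 1 ∨ s = -1) →
        |St d s N k h - c * N| ≤ ε * N := by
  have hdl := dlD_tendsto hd a
  have hex : ∀ ε : ℝ, 0 < ε → ∃ j₀ : ℕ, ∀ j ≥ j₀, dlD d a j ≤ ε := by
    intro ε hε
    obtain ⟨j₀, hj₀⟩ := Filter.eventually_atTop.1 (hdl.eventually (gt_mem_nhds hε))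
    exact ⟨j₀, fun j hj => (hj₀ j hj).le⟩
  set c : ℕ → ℝ := fun j => mn (FD d h a j) (2 ^ j * M) with hc
  have hclose : ∀ ε : ℝ, 0 < ε → ∀ i j : ℕ, dlD d a i ≤ ε → dlD d a j ≤ ε → |c i - c j| ≤ 6 * ε := by
    intro ε hε i j hi hj
    obtain ⟨N₁, hN₁⟩ := apx hd hd3 one_lt_crit' hε hM hc3 hi
    obtain ⟨N₂, hN₂⟩ := apx hd hd3 one_lt_crit' hε hM hc3 hj
    obtain ⟨N, hN⟩ : ∃ N : ℕ, N₁ ≤ N ∧ N₂ ≤ N ∧ 1 ≤ N ∧ ((max i j : ℕ) : ℝ) ≤ 1 * Real.log N := by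
      have h1 : Filter.Tendsto (fun N : ℕ => Real.log (N : ℝ)) Filter.atTop Filter.atTop :=
        Real.tendsto_log_atTop.comp tendsto_natCast_atTop_atTop
      obtain ⟨N, hN⟩ := (((Filter.eventually_ge_atTop N₁).and (Filter.eventually_ge_atTop N₂)).and
        ((Filter.eventually_ge_atTop 1).and (h1.eventually_ge_atTop ((max i j : ℕ) : ℝ)))).exists
      exact ⟨N, hN.1.1, hN.1.2, hN.2.1, by rw [one_mul]; exact hN.2.2⟩
    obtain ⟨hNa, hNb, hNc, hNd⟩ := hN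
    have h1 := hN₁ N hNa (max i j) (le_max_left _ _) hNd 1 (Or.inl rfl) h hh1 hh
    have h2 := hN₂ N hNb (max i j) (le_max_right _ _) hNd 1 (Or.inl rfl) h hh1 hh
    have hN0 : (0 : ℝ) < N := by exact_mod_cast hNc
    have b1 := abs_le.1 h1
    have b2 := abs_le.1 h2
    have h3 : |c i - c j| * N ≤ 6 * ε * N := by
      rw [← abs_of_pos hN0, ← abs_mul, abs_of_pos hN0, abs_le]
      constructor <;> rw [hc] <;> dsimp only <;> linarith [b1.1, b1.2, b2.1, b2.2]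
    exact le_of_mul_le_mul_right h3 hN0
  have hcau : CauchySeq c := by
    rw [Metric.cauchySeq_iff]
    intro ε hε
    obtain ⟨j₀, hj₀⟩ := hex (ε / 12) (by positivity)
    refine ⟨j₀, fun i hi j hj => ?_⟩
    have := hclose (ε / 12) (by positivity) i j (hj₀ i hi) (hj₀ j hj)
    rw [Real.dist_eq]
    linarith
  obtain ⟨C, hC⟩ := cauchySeq_tendsto_of_complete hcau
  refine ⟨C, fun κ hκ ε hε => ?_⟩
  obtain ⟨j₀, hj₀⟩ := hex (ε / 12) (by positivity)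
  obtain ⟨N₀, hN₀⟩ := apx (M := M) (a := a) (j := j₀) hd hd3 hκ (ε := ε / 12) (by positivity) hM hc3
    (hj₀ j₀ le_rfl)
  refine ⟨j₀, N₀, fun N hN k hk1 hk2 s hs => ?_⟩
  have h1 := hN₀ N hN k hk1 hk2 s hs h hh1 hh
  have h2 : |c j₀ - C| ≤ 6 * (ε / 12) := by
    have ht : Filter.Tendsto (fun j => |c j₀ - c j|) Filter.atTop (nhds |c j₀ - C|) :=
      (tendsto_const_nhds.sub hC).abs
    refine le_of_tendsto ht ?_
    filter_upwards [Filter.eventually_ge_atTop j₀] with j hj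
    exact hclose (ε / 12) (by positivity) j₀ j (hj₀ j₀ le_rfl) (hj₀ j hj)
  have hN0 : (0 : ℝ) ≤ N := by positivity
  have h3 : |c j₀ * N - C * N| ≤ 6 * (ε / 12) * N := by
    rw [← sub_mul, abs_mul, abs_of_nonneg hN0]
    exact mul_le_mul_of_nonneg_right h2 hN0
  have b1 := abs_le.1 h1
  have b3 := abs_le.1 h3
  have hεN : 0 ≤ ε * N := by positivity
  rw [hc] at b3
  dsimp only at b3
  rw [abs_le]
  constructor <;> linarith [b1.1, b1.2, b3.1, b3.2]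

end Pool.Agent.W5h47.SL
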