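import Pool.Agent.W5h47.SL.E

/-!
# The law of the `k`-th iterate of a `3x+d` map, for every `k` up to almost the whole trajectory

Let `d` be odd and prime to `3` and let `T` be the `3x+d` map on the integers. Choose `n` at random in
`{1, ..., N}` (or in `{-1, ..., -N}`). Since `T^k n` is about `n (3 / 4) ^ (k / 2)` for almost all `n`,
the range `k ≤ κ log N` with `κ < 2 / log (4 / 3)` covers the trajectories down to the size `N ^ o(1)`.
The theorem is about the law of the single iterate `T^k n`, for EVERY `k` in this range and uniformly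
in `k`. (The word of the first `log_2 N` parities is about uniform, which gives the law of `T^k n` for
`k ≤ log_2 N` in the classes modulo fixed powers of `2`; the range here is `4.8` times longer.)

1. A function on the integers whose sums over the residue classes mod `3^m` of the long windows
   `[x, 2x)` are small has a small mean along `T^k n`, `n ≤ N`.
2. The law of `T^k n` is almost invariant, in total variation, under the translations by the multiples
   of `3^m`.
3. It does not charge the sets of small density.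
4. `T^k n` is equidistributed in the classes modulo `Q` if `Q` is prime to `3`.
5. For every modulus `Q` there is a stationary law for the residue of `T^k n`, `k ≥ K₀`.

Proof. For one stage of `t` steps, `2^t ≤ N`, the law is determined by the words of the trajectories and
by the equidistribution of their offsets modulo the powers of `3` (`gam_all`, mixing for the `3`-adic
offsets, in the starting library), which is available on average over `t` only. New: starting points in
a class mod `3^m`, so that stages can be composed for signed functions; and every large `t` is the sum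
of two good times, since the good times have density larger than one half.
-/

set_option autoImplicit false

namespace Pool.Agent.Results.MP_d0d59f_nt.SingleIterates

open Finset
open Pool.Agent.W5h47.SL

/-- The `3x+d` map on the integers. -/
def T (d x : ℤ) : ℤ := if x % 2 = 0 then x / 2 else (3 * x + d) / 2

/-- The number of the `n`, `1 ≤ n ≤ N`, such that the `k`-th iterate of `s n` has the property `P`. -/
noncomputable def count (d s : ℤ) (N k : ℕ) (P : ℤ → Prop) : ℝ :=
  ({n : ℕ | 1 ≤ n ∧ n ≤ N ∧ P ((T d)^[k] (s * n))}.ncard : ℝ)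

theorem count_eq (d s : ℤ) (N k : ℕ) (P : ℤ → Prop) [DecidablePred P] :
    count d s N k P = St d s N k (fun x => if P x then 1 else 0) := by
  unfold count St
  have hT : T d = Pool.Agent.H499R2.CO.Tz d := rfl
  have h1 : {n : ℕ | 1 ≤ n ∧ n ≤ N ∧ P ((T d)^[k] (s * n))}
      = (((Icc 1 N).filter fun n => P ((T d)^[k] (s * (n : ℕ))) : Finset ℕ) : Set ℕ) := by
    ext n
    simp only [Set.mem_ofPred_eq, coe_filter, mem_Icc, and_assoc]
  rw [h1, Set.ncard_coe_finset, card_filter, hT]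
  push_cast
  rfl

/-- The times considered: `k ≤ κ log N` with a fixed `κ < 2 / log (4 / 3)`. A statement about `N`, `k`
and the sign `s` holds at all these times if it holds for all large `N`, all `k ≤ κ log N` and both
signs. -/
def AllTimes (κ : ℝ) (A : ℕ → ℕ → ℤ → Prop) : Prop :=
  ∃ N₀ : ℕ, ∀ N ≥ N₀, ∀ k : ℕ, (k : ℝ) ≤ κ * Real.log N → ∀ s : ℤ, (s = 1 ∨ s = -1) → A N k s

theorem result (d : ℤ) (hd : Odd d) (h3 : ¬ (3 : ℤ) ∣ d) :
    (∀ κ : ℝ, κ < 2 / Real.log (4 / 3) → ∀ ε : ℝ, 0 < ε →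
      -- 1
      (∃ m : ℕ, ∃ δ : ℝ, 0 < δ ∧ ∀ x₀ : ℝ, AllTimes κ fun N k s => ∀ g : ℤ → ℝ, (∀ y, |g y| ≤ 1) →
        (∀ x : ℝ, x₀ ≤ x → ∀ b : ℤ,
          |∑ y ∈ (Ico ⌈x⌉ ⌈2 * x⌉).filter (fun y => (3 : ℤ) ^ m ∣ y - b), g (s * y)| ≤ δ * x) →
        |∑ n ∈ Icc 1 N, g ((T d)^[k] (s * (n : ℕ)))| ≤ ε * N) ∧
      -- 2
      (∃ m : ℕ, ∀ q : ℤ, (3 : ℤ) ^ m ∣ q → AllTimes κ fun N k s => ∀ A : Set ℤ,
        |count d s N k (fun y => y ∈ A) - count d s N k (fun y => y + q ∈ A)| ≤ ε * N) ∧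
      -- 3
      (∃ δ : ℝ, 0 < δ ∧ ∀ x₀ : ℝ, AllTimes κ fun N k s => ∀ A : Set ℤ,
        (∀ x : ℝ, x₀ ≤ x → ({y : ℤ | x ≤ y ∧ y < 2 * x ∧ s * y ∈ A}.ncard : ℝ) ≤ δ * x) →
        count d s N k (fun y => y ∈ A) ≤ ε * N) ∧
      -- 4
      (∀ Q : ℕ, 1 ≤ Q → Nat.Coprime 3 Q → AllTimes κ fun N k s => ∀ a : ℤ,
        |count d s N k (fun y => y ≡ a [ZMOD Q]) - 1 / Q * N| ≤ ε * N)) ∧
    -- 5
    (∀ Q : ℕ, 1 ≤ Q → ∃ π : ℤ → ℝ, ∀ κ : ℝ, κ < 2 / Real.log (4 / 3) → ∀ ε : ℝ, 0 < ε →
      ∃ K₀ : ℕ, AllTimes κ fun N k s => K₀ ≤ k → ∀ a : ℤ,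
        |count d s N k (fun y => y ≡ a [ZMOD Q]) - π a * N| ≤ ε * N) := by
  classical
  have hd1 : d % 2 = 1 := Int.odd_iff.1 hd
  have hd3 : IsCoprime d 3 := by
    have hp : Prime (3 : ℤ) := Int.prime_three
    exact ((Prime.coprime_iff_not_dvd hp).2 h3).symm
  have hT : T d = Pool.Agent.H499R2.CO.Tz d := rfl
  have hclW : ∀ (x : ℝ) (m : ℕ) (b : ℤ) (f : ℤ → ℝ),
      ∑ y ∈ (Ico ⌈x⌉ ⌈2 * x⌉).filter (fun y => (3 : ℤ) ^ m ∣ y - b), f y
        = ∑ y ∈ R344.SP.cl x (2 * x) m 1 b, f y := by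
    intro x m b f
    unfold R344.SP.cl
    apply sum_congr _ (fun _ _ => rfl)
    ext y
    simp only [mem_filter, one_mul]
  have hind : ∀ (P : ℤ → Prop) (x : ℤ), |(if P x then (1 : ℝ) else 0)| ≤ 1 := by
    intro P x
    split_ifs <;> simp
  refine ⟨fun κ hκ ε hε => ⟨?_, ?_, ?_, ?_⟩, ?_⟩
  · -- 1
    obtain ⟨m, δ, hδ, h⟩ := core2 hd1 hd3 hκ hε
    refine ⟨m, δ / 3 ^ m, by positivity, fun x₀ => ?_⟩
    obtain ⟨N₀, hN₀⟩ := h x₀
    refine ⟨N₀, fun N hN k hk s hs g hg hP => ?_⟩
    refine hN₀ N hN k hk s hs g hg ?_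
    intro L hL b
    have h1 := hP L hL b
    rw [hclW L m b (fun y => g (s * y))] at h1
    refine h1.trans (le_of_eq ?_)
    ring
  · -- 2
    obtain ⟨m, δ, hδ, h⟩ := core2 hd1 hd3 hκ (ε := ε / 2) (by positivity)
    refine ⟨m, fun q hq => ?_⟩
    obtain ⟨N₀, hN₀⟩ := h (2 * (|(q : ℝ)| + 1) * 3 ^ m / δ)
    refine ⟨N₀, fun N hN k hk s hs A => ?_⟩
    rw [count_eq, count_eq, ← St_sub]
    have hqs : (3 : ℤ) ^ m ∣ s * q := hq.mul_left s
    have hsq : |((s * q : ℤ) : ℝ)| = |(q : ℝ)| := by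
      rcases hs with rfl | rfl
      · rw [one_mul]
      · rw [neg_one_mul]; push_cast; rw [abs_neg]
    have h1 := Pm_translate m hδ hqs (g := fun x => if s * x ∈ A then (1 : ℝ) else 0)
      (fun x => hind (fun x => s * x ∈ A) x)
    rw [hsq] at h1
    have h2 := hN₀ N hN k hk s hs
      (fun x => ((if x ∈ A then (1 : ℝ) else 0) - (if x + q ∈ A then 1 else 0)) / 2) (fun x => by
        split_ifs <;> norm_num) (by
        intro L hL b
        refine le_trans (le_of_eq ?_) (h1 L hL b)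
        congr 1
        apply sum_congr rfl
        intro x _
        dsimp only
        rw [mul_add, sgn_sq hs])
    rw [St_div d s N k (fun x => (if x ∈ A then (1 : ℝ) else 0) - (if x + q ∈ A then 1 else 0)) 2, abs_div,
      abs_two, div_le_iff₀ (by norm_num)] at h2
    linarith
  · -- 3
    obtain ⟨m, δ, hδ, h⟩ := core2 hd1 hd3 hκ hε
    refine ⟨δ / 3 ^ m, by positivity, fun x₀ => ?_⟩
    obtain ⟨N₀, hN₀⟩ := h x₀
    refine ⟨N₀, fun N hN k hk s hs A hA => ?_⟩
    rw [count_eq]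
    refine (le_abs_self _).trans (hN₀ N hN k hk s hs _ (fun x => hind (fun x => x ∈ A) x) ?_)
    intro L hL b
    have h0 : 0 ≤ ∑ x ∈ R344.SP.cl L (2 * L) m 1 b, (if s * x ∈ A then (1 : ℝ) else 0) :=
      sum_nonneg fun x _ => by split_ifs <;> norm_num
    rw [abs_of_nonneg h0]
    have h1 : ∑ x ∈ R344.SP.cl L (2 * L) m 1 b, (if s * x ∈ A then (1 : ℝ) else 0)
        ≤ ({y : ℤ | L ≤ y ∧ y < 2 * L ∧ s * y ∈ A}.ncard : ℝ) := by
      have h2 : ∑ x ∈ R344.SP.cl L (2 * L) m 1 b, (if s * x ∈ A then (1 : ℝ) else 0)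
          = (((R344.SP.cl L (2 * L) m 1 b).filter fun x => s * x ∈ A).card : ℝ) := by
        rw [card_filter]; push_cast; rfl
      rw [h2, ← Set.ncard_coe_finset]
      have hfin : {y : ℤ | L ≤ y ∧ y < 2 * L ∧ s * y ∈ A}.Finite := by
        apply (Set.finite_Icc ⌈L⌉ ⌈2 * L⌉).subset
        rintro y ⟨h3, h4, -⟩
        rw [Set.mem_Icc]
        exact ⟨Int.ceil_le.2 h3, by exact_mod_cast h4.le.trans (Int.le_ceil _)⟩
      have h3 : (((R344.SP.cl L (2 * L) m 1 b).filter fun x => s * x ∈ A : Finset ℤ) : Set ℤ)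
          ⊆ {y : ℤ | L ≤ y ∧ y < 2 * L ∧ s * y ∈ A} := by
        intro y hy
        rw [mem_coe, mem_filter, R344.SP.mem_cl] at hy
        exact ⟨hy.1.1.1, hy.1.1.2, hy.2⟩
      exact_mod_cast Set.ncard_le_ncard h3 hfin
    refine h1.trans ((hA L hL).trans (le_of_eq ?_))
    ring
  · -- 4
    intro Q hQ hc
    obtain ⟨N₀, hN₀⟩ := per_law hd1 hd3 hκ hε hQ hc
    refine ⟨N₀, fun N hN k hk s hs a => ?_⟩
    have hQ0 : (Q : ℤ) ≠ 0 := by
      have : Q ≠ 0 := by omega
      exact_mod_cast this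
    have h1 := hN₀ N hN k hk s hs (fun x => if x ≡ a [ZMOD Q] then 1 else 0)
      (fun x => by split_ifs <;> simp) (fun x z => by
        have : (x + Q * z ≡ a [ZMOD Q]) = (x ≡ a [ZMOD Q]) := by
          unfold Int.ModEq
          rw [Int.add_mul_emod_self_left]
        simp only [this])
    have hmn : R344.SP.mn (fun x => if x ≡ a [ZMOD Q] then (1 : ℝ) else 0) Q = 1 / Q := by
      unfold R344.SP.mn
      congr 1
      have hr0 := Int.emod_nonneg a hQ0
      have hr1 := Int.emod_lt_of_pos a (by positivity : (0 : ℤ) < Q)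
      rw [sum_eq_single (a % Q).toNat]
      · dsimp only
        rw [if_pos]
        unfold Int.ModEq
        rw [Int.toNat_of_nonneg hr0, Int.emod_emod_of_dvd _ dvd_rfl]
      · intro i hi hne
        rw [mem_range] at hi
        dsimp only
        rw [if_neg]
        intro hmod
        apply hne
        unfold Int.ModEq at hmod
        rw [Int.emod_eq_of_lt (by positivity) (by exact_mod_cast hi)] at hmod
        omega
      · intro hni
        exfalso
        apply hni
        rw [mem_range]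
        omega
    rw [hmn] at h1
    rw [count_eq]
    exact h1
  · -- 5
    intro Q hQ
    obtain ⟨v, M, hM3, hQM⟩ := Nat.exists_eq_pow_mul_and_not_dvd (n := Q) (by omega) 3 (by norm_num)
    have hM1 : 1 ≤ M := by
      rcases Nat.eq_zero_or_pos M with h | h
      · rw [h, mul_zero] at hQM; omega
      · exact h
    have hc3 : Nat.Coprime 3 M := (Nat.Prime.coprime_iff_not_dvd (by norm_num)).2 hM3
    have hQ0 : (Q : ℤ) ≠ 0 := by
      have : Q ≠ 0 := by omega
      exact_mod_cast this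
    have hst : ∀ a : ℤ, ∃ c : ℝ, ∀ κ : ℝ, κ < 2 / Real.log (4 / 3) → ∀ ε : ℝ, 0 < ε →
        ∃ K₀ N₀ : ℕ, ∀ N ≥ N₀, ∀ k : ℕ, K₀ ≤ k → (k : ℝ) ≤ κ * Real.log N → ∀ s : ℤ, (s = 1 ∨ s = -1) →
          |St d s N k (fun x => if x ≡ a [ZMOD Q] then 1 else 0) - c * N| ≤ ε * N := by
      intro a
      apply stat hd1 hd3 (fun x => by split_ifs <;> simp) hM1 hc3 (a := v)
      intro x z
      have : (x + Q * z ≡ a [ZMOD Q]) = (x ≡ a [ZMOD Q]) := by
        unfold Int.ModEq
        rw [Int.add_mul_emod_self_left]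
      rw [← hQM]
      simp only [this]
    choose c hc using hst
    refine ⟨fun a => c (a % Q), fun κ hκ ε hε => ?_⟩
    choose K₀ N₀ hKN using fun a => hc a κ hκ ε hε
    refine ⟨∑ i ∈ range Q, K₀ (i : ℕ), ∑ i ∈ range Q, N₀ (i : ℕ), fun N hN k hk s hs hKk a => ?_⟩
    have hr0 := Int.emod_nonneg a hQ0
    have hr1 := Int.emod_lt_of_pos a (by positivity : (0 : ℤ) < Q)
    have hmem : (a % Q).toNat ∈ range Q := by rw [mem_range]; omega
    have hcast : (((a % Q).toNat : ℕ) : ℤ) = a % Q := Int.toNat_of_nonneg hr0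
    have hK : K₀ (a % Q) ≤ ∑ i ∈ range Q, K₀ (i : ℕ) := by
      have := single_le_sum (f := fun i : ℕ => K₀ (i : ℕ)) (fun i _ => Nat.zero_le _) hmem
      rwa [hcast] at this
    have hNN : N₀ (a % Q) ≤ ∑ i ∈ range Q, N₀ (i : ℕ) := by
      have := single_le_sum (f := fun i : ℕ => N₀ (i : ℕ)) (fun i _ => Nat.zero_le _) hmem
      rwa [hcast] at this
    have h1 := hKN (a % Q) N (hNN.trans hN) k (hK.trans hKk) hk s hs
    rw [count_eq]
    have e1 : (fun x : ℤ => if x ≡ a [ZMOD Q] then (1 : ℝ) else 0)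
        = fun x => if x ≡ a % Q [ZMOD Q] then 1 else 0 := by
      funext x
      have : (x ≡ a [ZMOD Q]) = (x ≡ a % Q [ZMOD Q]) := by
        unfold Int.ModEq
        rw [Int.emod_emod_of_dvd _ dvd_rfl]
      simp only [this]
    rw [e1]
    exact h1

end Pool.Agent.Results.MP_d0d59f_nt.SingleIterates
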